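import Mathlib

/-!
# Composition of functions that are computable in polynomial time

`TM2ComputableInPolyTime ea eb f` and `TM2ComputableInPolyTime eb ec g` give
`TM2ComputableInPolyTime ea ec (g ∘ f)`.
-/

set_option linter.unusedSectionVars false

namespace Pool.Agent.Lib.CookLevin

open Function Turing StateTransition

/-- The machine goes from `a` to `b` in exactly `n` steps. -/
def Steps {K : Type} [DecidableEq K] {Γ : K → Type} {Λ σ : Type} (M : Λ → TM2.Stmt Γ Λ σ) (n : ℕ)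
    (a b : TM2.Cfg Γ Λ σ) : Prop := (flip bind (TM2.step M))^[n] (some a) = some b

section steps

variable {K : Type} [DecidableEq K] {Γ : K → Type} {Λ σ : Type} {M : Λ → TM2.Stmt Γ Λ σ}

theorem Steps.trans {n m : ℕ} {a b c : TM2.Cfg Γ Λ σ} (h₁ : Steps M n a b) (h₂ : Steps M m b c) :
    Steps M (n + m) a c := by
  unfold Steps at *
  rw [Nat.add_comm, Function.iterate_add_apply, h₁, h₂]

theorem Steps.one {a b : TM2.Cfg Γ Λ σ} (h : TM2.step M a = some b) : Steps M 1 a b := h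

theorem Steps.cons {n : ℕ} {a b c : TM2.Cfg Γ Λ σ} (h : TM2.step M a = some b)
    (h' : Steps M n b c) : Steps M (n + 1) a c := by
  rw [Nat.add_comm]
  exact (Steps.one h).trans h'

theorem Steps.zero (a : TM2.Cfg Γ Λ σ) : Steps M 0 a a := rfl

theorem iterate_none (f : TM2.Cfg Γ Λ σ → Option (TM2.Cfg Γ Λ σ)) (n : ℕ) :
    (flip bind f)^[n] (none : Option (TM2.Cfg Γ Λ σ)) = none := by
  induction n with
  | zero => rfl
  | succ n ih => rw [Function.iterate_succ_apply]; exact ih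

theorem Steps.succ_inv {n : ℕ} {a c : TM2.Cfg Γ Λ σ} (h : Steps M (n + 1) a c) :
    ∃ b, TM2.step M a = some b ∧ Steps M n b c := by
  unfold Steps at h
  rw [Function.iterate_succ_apply] at h
  change (flip bind (TM2.step M))^[n] (TM2.step M a) = some c at h
  cases hs : TM2.step M a with
  | none => rw [hs, iterate_none] at h; cases h
  | some b => rw [hs] at h; exact ⟨b, rfl, h⟩

end steps

section comp

variable {K₁ K₂ : Type} [DecidableEq K₁] [DecidableEq K₂] {Γ₁ : K₁ → Type} {Γ₂ : K₂ → Type}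
  {Λ₁ Λ₂ σ₁ σ₂ X : Type}

/-- The stack alphabets of the composition. -/
abbrev CΓ (Γ₁ : K₁ → Type) (Γ₂ : K₂ → Type) (X : Type) : K₁ ⊕ (K₂ ⊕ Unit) → Type
  | Sum.inl k => Γ₁ k
  | Sum.inr (Sum.inl k) => Γ₂ k
  | Sum.inr (Sum.inr _) => X

/-- The stacks of the composition. -/
def stc (S₁ : ∀ k, List (Γ₁ k)) (S₂ : ∀ k, List (Γ₂ k)) (A : List X) :
    ∀ k, List (CΓ Γ₁ Γ₂ X k)
  | Sum.inl k => S₁ k
  | Sum.inr (Sum.inl k) => S₂ k
  | Sum.inr (Sum.inr _) => A

theorem stc_upd1 (S₁ : ∀ k, List (Γ₁ k)) (S₂ : ∀ k, List (Γ₂ k)) (A : List X) (k : K₁)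
    (l : List (Γ₁ k)) :
    update (stc S₁ S₂ A) (Sum.inl k) l = stc (update S₁ k l) S₂ A := by
  funext j
  rcases j with j | j | j
  · by_cases h : j = k
    · subst h; rw [update_self]; show l = update S₁ j l j; rw [update_self]
    · rw [update_of_ne (by simpa using h)]
      show S₁ j = update S₁ k l j
      rw [update_of_ne h]
  · rw [update_of_ne (by simp)]; rfl
  · rw [update_of_ne (by simp)]; rfl

theorem stc_upd2 (S₁ : ∀ k, List (Γ₁ k)) (S₂ : ∀ k, List (Γ₂ k)) (A : List X) (k : K₂)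
    (l : List (Γ₂ k)) :
    update (stc S₁ S₂ A) (Sum.inr (Sum.inl k)) l = stc S₁ (update S₂ k l) A := by
  funext j
  rcases j with j | j | j
  · rw [update_of_ne (by simp)]; rfl
  · by_cases h : j = k
    · subst h; rw [update_self]; show l = update S₂ j l j; rw [update_self]
    · rw [update_of_ne (by simpa using h)]
      show S₂ j = update S₂ k l j
      rw [update_of_ne h]
  · rw [update_of_ne (by simp)]; rfl

theorem stc_upd3 (S₁ : ∀ k, List (Γ₁ k)) (S₂ : ∀ k, List (Γ₂ k)) (A l : List X) :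
    update (stc S₁ S₂ A) (Sum.inr (Sum.inr ())) l = stc S₁ S₂ l := by
  funext j
  rcases j with j | j | j
  · rw [update_of_ne (by simp)]; rfl
  · rw [update_of_ne (by simp)]; rfl
  · cases j; rw [update_self]; rfl

/-- Labels of the composition. -/
abbrev CΛ (Λ₁ Λ₂ : Type) : Type := Λ₁ ⊕ (Λ₂ ⊕ Bool)

/-- States of the composition. -/
abbrev Cσ (σ₁ σ₂ X : Type) : Type := σ₁ × (σ₂ × Option X)

/-- The statements of the first machine. -/
def map1 : TM2.Stmt Γ₁ Λ₁ σ₁ → TM2.Stmt (CΓ Γ₁ Γ₂ X) (CΛ Λ₁ Λ₂) (Cσ σ₁ σ₂ X)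
  | .push k f q => .push (Sum.inl k) (fun v => f v.1) (map1 q)
  | .peek k f q => .peek (Sum.inl k) (fun v o => (f v.1 o, v.2)) (map1 q)
  | .pop k f q => .pop (Sum.inl k) (fun v o => (f v.1 o, v.2)) (map1 q)
  | .load a q => .load (fun v => (a v.1, v.2)) (map1 q)
  | .branch p q₁ q₂ => .branch (fun v => p v.1) (map1 q₁) (map1 q₂)
  | .goto l => .goto fun v => Sum.inl (l v.1)
  | .halt => .goto fun _ => Sum.inr (Sum.inr false)

/-- The statements of the second machine. -/
def map2 : TM2.Stmt Γ₂ Λ₂ σ₂ → TM2.Stmt (CΓ Γ₁ Γ₂ X) (CΛ Λ₁ Λ₂) (Cσ σ₁ σ₂ X)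
  | .push k f q => .push (Sum.inr (Sum.inl k)) (fun v => f v.2.1) (map2 q)
  | .peek k f q => .peek (Sum.inr (Sum.inl k)) (fun v o => (v.1, (f v.2.1 o, v.2.2))) (map2 q)
  | .pop k f q => .pop (Sum.inr (Sum.inl k)) (fun v o => (v.1, (f v.2.1 o, v.2.2))) (map2 q)
  | .load a q => .load (fun v => (v.1, (a v.2.1, v.2.2))) (map2 q)
  | .branch p q₁ q₂ => .branch (fun v => p v.2.1) (map2 q₁) (map2 q₂)
  | .goto l => .goto fun v => Sum.inr (Sum.inl (l v.2.1))
  | .halt => .halt

/-- The configuration of the composition while the first machine runs. -/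
def conv1 (w : σ₂ × Option X) (S₂ : ∀ k, List (Γ₂ k)) (A : List X) (c : TM2.Cfg Γ₁ Λ₁ σ₁) :
    TM2.Cfg (CΓ Γ₁ Γ₂ X) (CΛ Λ₁ Λ₂) (Cσ σ₁ σ₂ X) :=
  ⟨some (c.l.elim (Sum.inr (Sum.inr false)) Sum.inl), (c.var, w), stc c.stk S₂ A⟩

/-- The configuration of the composition while the second machine runs. -/
def conv2 (v : σ₁) (w : Option X) (S₁ : ∀ k, List (Γ₁ k)) (A : List X)
    (c : TM2.Cfg Γ₂ Λ₂ σ₂) : TM2.Cfg (CΓ Γ₁ Γ₂ X) (CΛ Λ₁ Λ₂) (Cσ σ₁ σ₂ X) :=
  ⟨c.l.map fun l => Sum.inr (Sum.inl l), (v, (c.var, w)), stc S₁ c.stk A⟩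

theorem stepAux_map1 (w : σ₂ × Option X) (S₂ : ∀ k, List (Γ₂ k)) (A : List X)
    (q : TM2.Stmt Γ₁ Λ₁ σ₁) : ∀ (v : σ₁) (S : ∀ k, List (Γ₁ k)),
    TM2.stepAux (map1 (Λ₂ := Λ₂) (Γ₂ := Γ₂) q) (v, w) (stc S S₂ A) =
      conv1 w S₂ A (TM2.stepAux q v S) := by
  induction q with
  | push k f q ih =>
    intro v S
    simp only [map1, TM2.stepAux]
    rw [stc_upd1]
    exact ih v (update S k (f v :: S k))
  | peek k f q ih =>
    intro v S
    simp only [map1, TM2.stepAux]
    exact ih (f v (S k).head?) S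
  | pop k f q ih =>
    intro v S
    simp only [map1, TM2.stepAux]
    rw [stc_upd1]
    exact ih (f v (S k).head?) (update S k (S k).tail)
  | load a q ih => intro v S; exact ih (a v) S
  | branch p q₁ q₂ ih₁ ih₂ =>
    intro v S
    simp only [map1, TM2.stepAux]
    cases p v
    · exact ih₂ v S
    · exact ih₁ v S
  | goto l => intro v S; rfl
  | halt => intro v S; rfl

theorem stepAux_map2 (v₁ : σ₁) (w : Option X) (S₁ : ∀ k, List (Γ₁ k)) (A : List X)
    (q : TM2.Stmt Γ₂ Λ₂ σ₂) : ∀ (v : σ₂) (S : ∀ k, List (Γ₂ k)),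
    TM2.stepAux (map2 (Λ₁ := Λ₁) (Γ₁ := Γ₁) q) (v₁, (v, w)) (stc S₁ S A) =
      conv2 v₁ w S₁ A (TM2.stepAux q v S) := by
  induction q with
  | push k f q ih =>
    intro v S
    simp only [map2, TM2.stepAux]
    rw [stc_upd2]
    exact ih v (update S k (f v :: S k))
  | peek k f q ih =>
    intro v S
    simp only [map2, TM2.stepAux]
    exact ih (f v (S k).head?) S
  | pop k f q ih =>
    intro v S
    simp only [map2, TM2.stepAux]
    rw [stc_upd2]
    exact ih (f v (S k).head?) (update S k (S k).tail)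
  | load a q ih => intro v S; exact ih (a v) S
  | branch p q₁ q₂ ih₁ ih₂ =>
    intro v S
    simp only [map2, TM2.stepAux]
    cases p v
    · exact ih₂ v S
    · exact ih₁ v S
  | goto l => intro v S; rfl
  | halt => intro v S; rfl

/-- The transfer of the output of the first machine to the input of the second machine. -/
def transfer (k₁ : K₁) (k₀ : K₂) (g : Γ₁ k₁ → X) (h : X → Γ₂ k₀) (d : X) (l₂ : Λ₂) :
    Bool → TM2.Stmt (CΓ Γ₁ Γ₂ X) (CΛ Λ₁ Λ₂) (Cσ σ₁ σ₂ X)
  | false => .pop (Sum.inl k₁) (fun v o => (v.1, (v.2.1, o.map g)))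
      (.branch (fun v => v.2.2.isSome)
        (.push (Sum.inr (Sum.inr ())) (fun v => (v.2.2.getD d : X))
          (.goto fun _ => Sum.inr (Sum.inr false)))
        (.goto fun _ => Sum.inr (Sum.inr true)))
  | true => .pop (Sum.inr (Sum.inr ())) (fun v (o : Option X) => (v.1, (v.2.1, o)))
      (.branch (fun v => v.2.2.isSome)
        (.push (Sum.inr (Sum.inl k₀)) (fun v => (h (v.2.2.getD d) : Γ₂ k₀))
          (.goto fun _ => Sum.inr (Sum.inr true)))
        (.goto fun _ => Sum.inr (Sum.inl l₂)))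

/-- The program of the composition. -/
def compM (m₁ : Λ₁ → TM2.Stmt Γ₁ Λ₁ σ₁) (m₂ : Λ₂ → TM2.Stmt Γ₂ Λ₂ σ₂) (k₁ : K₁) (k₀ : K₂)
    (g : Γ₁ k₁ → X) (h : X → Γ₂ k₀) (d : X) (l₂ : Λ₂) :
    CΛ Λ₁ Λ₂ → TM2.Stmt (CΓ Γ₁ Γ₂ X) (CΛ Λ₁ Λ₂) (Cσ σ₁ σ₂ X)
  | Sum.inl l => map1 (m₁ l)
  | Sum.inr (Sum.inl l) => map2 (m₂ l)
  | Sum.inr (Sum.inr b) => transfer k₁ k₀ g h d l₂ b

variable {m₁ : Λ₁ → TM2.Stmt Γ₁ Λ₁ σ₁} {m₂ : Λ₂ → TM2.Stmt Γ₂ Λ₂ σ₂} {k₁ : K₁} {k₀ : K₂}
  {g : Γ₁ k₁ → X} {h : X → Γ₂ k₀} {d : X} {l₂ : Λ₂}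

theorem steps_map1 (w : σ₂ × Option X) (S₂ : ∀ k, List (Γ₂ k)) (A : List X) {n : ℕ} :
    ∀ {c c' : TM2.Cfg Γ₁ Λ₁ σ₁}, Steps m₁ n c c' →
    Steps (compM m₁ m₂ k₁ k₀ g h d l₂) n (conv1 w S₂ A c) (conv1 w S₂ A c') := by
  induction n with
  | zero =>
    intro c c' hs
    obtain rfl : c = c' := by simpa [Steps] using hs
    exact Steps.zero _
  | succ n ih =>
    intro c c' hs
    obtain ⟨b, h1, h2⟩ := hs.succ_inv
    refine Steps.cons ?_ (ih h2)
    obtain ⟨l, v, S⟩ := c
    cases l with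
    | none => simp [TM2.step] at h1
    | some l =>
      simp only [TM2.step, Option.some.injEq] at h1
      subst h1
      exact congrArg some (stepAux_map1 w S₂ A (m₁ l) v S)

theorem steps_map2 (v₁ : σ₁) (w : Option X) (S₁ : ∀ k, List (Γ₁ k)) (A : List X) {n : ℕ} :
    ∀ {c c' : TM2.Cfg Γ₂ Λ₂ σ₂}, Steps m₂ n c c' →
    Steps (compM m₁ m₂ k₁ k₀ g h d l₂) n (conv2 v₁ w S₁ A c) (conv2 v₁ w S₁ A c') := by
  induction n with
  | zero =>
    intro c c' hs
    obtain rfl : c = c' := by simpa [Steps] using hs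
    exact Steps.zero _
  | succ n ih =>
    intro c c' hs
    obtain ⟨b, h1, h2⟩ := hs.succ_inv
    refine Steps.cons ?_ (ih h2)
    obtain ⟨l, v, S⟩ := c
    cases l with
    | none => simp [TM2.step] at h1
    | some l =>
      simp only [TM2.step, Option.some.injEq] at h1
      subst h1
      exact congrArg some (stepAux_map2 v₁ w S₁ A (m₂ l) v S)

theorem steps_transfer_false (v₁ : σ₁) (v₂ : σ₂) (S₂ : ∀ k, List (Γ₂ k)) :
    ∀ (L : List (Γ₁ k₁)) (w : Option X) (S : ∀ k, List (Γ₁ k)) (A : List X), S k₁ = L →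
    Steps (compM m₁ m₂ k₁ k₀ g h d l₂) (L.length + 1)
      ⟨some (Sum.inr (Sum.inr false)), (v₁, (v₂, w)), stc S S₂ A⟩
      ⟨some (Sum.inr (Sum.inr true)), (v₁, (v₂, none)),
        stc (update S k₁ []) S₂ ((L.map g).reverse ++ A)⟩ := by
  intro L
  induction L with
  | nil =>
    intro w S A hL
    refine Steps.one ?_
    have e : stc S S₂ A (Sum.inl k₁) = ([] : List (Γ₁ k₁)) := hL
    simp only [TM2.step, compM, transfer, TM2.stepAux, e, List.head?_nil, List.tail_nil,
      Option.map_none, Option.isSome_none, cond_false, List.map_nil, List.reverse_nil,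
      List.nil_append]
    rw [stc_upd1]
  | cons a L ih =>
    intro w S A hL
    have e : stc S S₂ A (Sum.inl k₁) = (a :: L : List (Γ₁ k₁)) := hL
    have h1 := ih (some (g a)) (update S k₁ L) (g a :: A) (by rw [update_self])
    rw [update_idem] at h1
    rw [List.length_cons]
    simp only [List.map_cons, List.reverse_cons, List.append_assoc, List.singleton_append]
    refine Steps.cons ?_ h1
    simp only [TM2.step, compM, transfer, TM2.stepAux, e, List.head?_cons, List.tail_cons,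
      Option.map_some, Option.isSome_some, cond_true, Option.getD_some]
    rw [stc_upd1]
    have e2 : stc (update S k₁ L) S₂ A (Sum.inr (Sum.inr ())) = A := rfl
    rw [e2, stc_upd3]

theorem steps_transfer_true (v₁ : σ₁) (v₂ : σ₂) (S₁ : ∀ k, List (Γ₁ k)) :
    ∀ (L : List X) (w : Option X) (S : ∀ k, List (Γ₂ k)),
    Steps (compM m₁ m₂ k₁ k₀ g h d l₂) (L.length + 1)
      ⟨some (Sum.inr (Sum.inr true)), (v₁, (v₂, w)), stc S₁ S L⟩
      ⟨some (Sum.inr (Sum.inl l₂)), (v₁, (v₂, none)),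
        stc S₁ (update S k₀ ((L.map h).reverse ++ S k₀)) []⟩ := by
  intro L
  induction L with
  | nil =>
    intro w S
    refine Steps.one ?_
    have e : stc S₁ S ([] : List X) (Sum.inr (Sum.inr ())) = ([] : List X) := rfl
    simp only [TM2.step, compM, transfer, TM2.stepAux, e, List.head?_nil, List.tail_nil,
      Option.isSome_none, cond_false, List.map_nil, List.reverse_nil, List.nil_append]
    rw [stc_upd3, update_eq_self]
  | cons a L ih =>
    intro w S
    have e : stc S₁ S (a :: L) (Sum.inr (Sum.inr ())) = (a :: L : List X) := rfl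
    have h1 := ih (some a) (update S k₀ (h a :: S k₀))
    rw [update_idem, update_self] at h1
    rw [List.length_cons]
    simp only [List.map_cons, List.reverse_cons, List.append_assoc, List.singleton_append]
    refine Steps.cons ?_ h1
    simp only [TM2.step, compM, transfer, TM2.stepAux, e, List.head?_cons, List.tail_cons,
      Option.isSome_some, cond_true, Option.getD_some]
    rw [stc_upd3]
    have e2 : stc S₁ S L (Sum.inr (Sum.inl k₀)) = S k₀ := rfl
    rw [e2, stc_upd2]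

end comp

section growth

variable {K : Type} [DecidableEq K] {Γ : K → Type} {Λ σ : Type}

/-- The number of pushes in a statement. -/
def pushes : TM2.Stmt Γ Λ σ → ℕ
  | .push _ _ q => pushes q + 1
  | .peek _ _ q => pushes q
  | .pop _ _ q => pushes q
  | .load _ q => pushes q
  | .branch _ q₁ q₂ => max (pushes q₁) (pushes q₂)
  | .goto _ => 0
  | .halt => 0

theorem length_stepAux (q : TM2.Stmt Γ Λ σ) : ∀ (v : σ) (S : ∀ k, List (Γ k)) (j : K),
    ((TM2.stepAux q v S).stk j).length ≤ (S j).length + pushes q := by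
  induction q with
  | push k f q ih =>
    intro v S j
    refine (ih v _ j).trans ?_
    simp only [pushes]
    by_cases hj : j = k
    · subst hj; rw [update_self, List.length_cons]; omega
    · rw [update_of_ne hj]; omega
  | peek k f q ih => intro v S j; exact ih _ S j
  | pop k f q ih =>
    intro v S j
    refine (ih _ _ j).trans ?_
    simp only [pushes]
    by_cases hj : j = k
    · subst hj; rw [update_self, List.length_tail]; omega
    · rw [update_of_ne hj]
  | load a q ih => intro v S j; exact ih _ S j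
  | branch p q₁ q₂ ih₁ ih₂ =>
    intro v S j
    simp only [TM2.stepAux, pushes]
    cases p v
    · exact (ih₂ v S j).trans (Nat.add_le_add_left (le_max_right _ _) _)
    · exact (ih₁ v S j).trans (Nat.add_le_add_left (le_max_left _ _) _)
  | goto l => intro v S j; exact le_rfl
  | halt => intro v S j; exact le_rfl

theorem length_steps {M : Λ → TM2.Stmt Γ Λ σ} {b : ℕ} (hb : ∀ l, pushes (M l) ≤ b) (j : K)
    {n : ℕ} : ∀ {c c' : TM2.Cfg Γ Λ σ}, Steps M n c c' →
    (c'.stk j).length ≤ (c.stk j).length + b * n := by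
  induction n with
  | zero =>
    intro c c' hs
    obtain rfl : c = c' := by simpa [Steps] using hs
    simp
  | succ n ih =>
    intro c c' hs
    obtain ⟨d, h1, h2⟩ := hs.succ_inv
    obtain ⟨l, v, S⟩ := c
    cases l with
    | none => simp [TM2.step] at h1
    | some l =>
      simp only [TM2.step, Option.some.injEq] at h1
      subst h1
      have h3 := length_stepAux (M l) v S j
      have h4 := ih h2
      have h5 := hb l
      simp only at h3 h4 ⊢
      rw [Nat.mul_succ]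
      omega

end growth

end Pool.Agent.Lib.CookLevin
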