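import Pool.Agent.Lib.CookLevin.Comp

/-!
# Composition of functions that are computable in polynomial time, continued
-/

set_option linter.unusedSectionVars false

namespace Pool.Agent.Lib.CookLevin

open Function Turing StateTransition

/-- The composition of two machines. -/
def compTM {X : Type} [Fintype X] (M₁ M₂ : FinTM2) (g : M₁.Γ M₁.k₁ → X) (h : X → M₂.Γ M₂.k₀)
    (d : X) : FinTM2 where
  K := M₁.K ⊕ (M₂.K ⊕ Unit)
  kDecidableEq := have := M₁.kDecidableEq; have := M₂.kDecidableEq; inferInstance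
  kFin := have := M₁.kFin; have := M₂.kFin; inferInstance
  k₀ := Sum.inl M₁.k₀
  k₁ := Sum.inr (Sum.inl M₂.k₁)
  Γ := CΓ M₁.Γ M₂.Γ X
  Λ := CΛ M₁.Λ M₂.Λ
  main := Sum.inl M₁.main
  ΛFin := have := M₁.ΛFin; have := M₂.ΛFin; inferInstance
  σ := Cσ M₁.σ M₂.σ X
  initialState := (M₁.initialState, (M₂.initialState, none))
  σFin := have := M₁.σFin; have := M₂.σFin; inferInstance
  Γk₀Fin := M₁.Γk₀Fin
  m := compM M₁.m M₂.m M₁.k₁ M₂.k₀ g h d M₂.main

/-- The stack `k` contains `l` and the other ones are empty. -/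
def single {K : Type} [DecidableEq K] {Γ : K → Type} (k : K) (l : List (Γ k)) :
    ∀ j, List (Γ j) := update (fun _ => []) k l

theorem initList_eq (tm : FinTM2) (l : List (tm.Γ tm.k₀)) :
    initList tm l = ⟨some tm.main, tm.initialState, single tm.k₀ l⟩ := by
  unfold initList single
  congr 1
  funext k
  by_cases hk : k = tm.k₀
  · subst hk
    rw [update_self]
    exact dif_pos rfl
  · rw [update_of_ne hk]
    exact dif_neg hk

theorem haltList_eq (tm : FinTM2) (l : List (tm.Γ tm.k₁)) :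
    haltList tm l = ⟨none, tm.initialState, single tm.k₁ l⟩ := by
  unfold haltList single
  congr 1
  funext k
  by_cases hk : k = tm.k₁
  · subst hk
    rw [update_self]
    exact dif_pos rfl
  · rw [update_of_ne hk]
    exact dif_neg hk

theorem outputs_iff {tm : FinTM2} {l : List (tm.Γ tm.k₀)} {l' : List (tm.Γ tm.k₁)} {t : ℕ} :
    Nonempty (TM2OutputsInTime tm l (some l') t) ↔ ∃ n ≤ t,
      Steps tm.m n ⟨some tm.main, tm.initialState, single tm.k₀ l⟩
        ⟨none, tm.initialState, single tm.k₁ l'⟩ := by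
  constructor
  · rintro ⟨⟨n, h⟩, hn⟩
    refine ⟨n, hn, ?_⟩
    rw [Option.map_some, haltList_eq] at h
    unfold Steps
    rw [← initList_eq]
    exact h
  · rintro ⟨n, hn, h⟩
    refine ⟨⟨⟨n, ?_⟩, hn⟩⟩
    rw [Option.map_some, haltList_eq]
    unfold Steps at h
    rw [← initList_eq] at h
    exact h

theorem output_length {tm : FinTM2} {b : ℕ} (hb : ∀ l, pushes (tm.m l) ≤ b)
    {l : List (tm.Γ tm.k₀)} {l' : List (tm.Γ tm.k₁)} {t : ℕ}
    (h : Nonempty (TM2OutputsInTime tm l (some l') t)) : l'.length ≤ l.length + b * t := by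
  obtain ⟨n, hn, hs⟩ := outputs_iff.1 h
  have h1 := length_steps hb tm.k₁ hs
  have h2 : (single (Γ := tm.Γ) tm.k₀ l tm.k₁).length ≤ l.length := by
    unfold single
    by_cases hk : tm.k₁ = tm.k₀
    · have : ∀ k, k = tm.k₀ → (update (fun _ => []) tm.k₀ l k : List (tm.Γ k)).length ≤
          l.length := by
        rintro _ rfl
        rw [update_self]
      exact this _ hk
    · rw [update_of_ne hk]; simp
  have h3 : (single (Γ := tm.Γ) tm.k₁ l' tm.k₁) = l' := by
    unfold single; rw [update_self]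
  simp only [h3] at h1
  have h4 : b * n ≤ b * t := Nat.mul_le_mul_left _ hn
  omega

theorem stc_single1 {K₁ K₂ : Type} [DecidableEq K₁] [DecidableEq K₂] {Γ₁ : K₁ → Type}
    {Γ₂ : K₂ → Type} {X : Type} (k : K₁) (l : List (Γ₁ k)) :
    stc (single k l) (fun _ => []) ([] : List X) =
      (single (Γ := CΓ Γ₁ Γ₂ X) (Sum.inl k) l) := by
  unfold single
  rw [← stc_upd1]
  congr 1
  funext j
  rcases j with j | j | j <;> rfl

theorem stc_single2 {K₁ K₂ : Type} [DecidableEq K₁] [DecidableEq K₂] {Γ₁ : K₁ → Type}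
    {Γ₂ : K₂ → Type} {X : Type} (k : K₂) (l : List (Γ₂ k)) :
    stc (fun _ => []) (single k l) ([] : List X) =
      (single (Γ := CΓ Γ₁ Γ₂ X) (Sum.inr (Sum.inl k)) l) := by
  unfold single
  rw [← stc_upd2]
  congr 1
  funext j
  rcases j with j | j | j <;> rfl

theorem compTM_outputs {X : Type} [Fintype X] {M₁ M₂ : FinTM2} {g : M₁.Γ M₁.k₁ → X}
    {h : X → M₂.Γ M₂.k₀} {d : X} {l : List (M₁.Γ M₁.k₀)} {l₁ : List (M₁.Γ M₁.k₁)}
    {l₂ : List (M₂.Γ M₂.k₁)} {t₁ t₂ : ℕ} (h₁ : Nonempty (TM2OutputsInTime M₁ l (some l₁) t₁))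
    (h₂ : Nonempty (TM2OutputsInTime M₂ ((l₁.map g).map h) (some l₂) t₂)) :
    Nonempty (TM2OutputsInTime (compTM M₁ M₂ g h d) l (some l₂)
      (t₁ + 2 * (l₁.length + 1) + t₂)) := by
  obtain ⟨n₁, hn₁, hs₁⟩ := outputs_iff.1 h₁
  obtain ⟨n₂, hn₂, hs₂⟩ := outputs_iff.1 h₂
  refine outputs_iff.2 ⟨n₁ + (l₁.length + 1 + (((l₁.map g).reverse.length + 1) + n₂)), ?_, ?_⟩
  · simp only [List.length_reverse, List.length_map]
    omega
  · have s₁ := steps_map1 (m₁ := M₁.m) (m₂ := M₂.m) (k₁ := M₁.k₁) (k₀ := M₂.k₀) (g := g)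
      (h := h) (d := d) (l₂ := M₂.main) (M₂.initialState, none) (fun _ => []) [] hs₁
    have s₂ := steps_transfer_false (m₁ := M₁.m) (m₂ := M₂.m) (k₁ := M₁.k₁) (k₀ := M₂.k₀) (g := g)
      (h := h) (d := d) (l₂ := M₂.main) M₁.initialState M₂.initialState (fun _ => []) l₁ none
      (single M₁.k₁ l₁) [] (by unfold single; rw [update_self])
    have s₃ := steps_transfer_true (m₁ := M₁.m) (m₂ := M₂.m) (k₁ := M₁.k₁) (k₀ := M₂.k₀) (g := g)
      (h := h) (d := d) (l₂ := M₂.main) M₁.initialState M₂.initialState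
      (update (single M₁.k₁ l₁) M₁.k₁ []) ((l₁.map g).reverse ++ []) none (fun _ => [])
    have s₄ := steps_map2 (m₁ := M₁.m) (m₂ := M₂.m) (k₁ := M₁.k₁) (k₀ := M₂.k₀) (g := g)
      (h := h) (d := d) (l₂ := M₂.main) M₁.initialState none (fun _ => []) [] hs₂
    have e1 : update (single M₁.k₁ l₁) M₁.k₁ [] = (fun _ => [] : ∀ k, List (M₁.Γ k)) := by
      unfold single
      rw [update_idem]
      exact update_eq_self _ _
    have e2 : update (fun _ => [] : ∀ k, List (M₂.Γ k)) M₂.k₀
        ((((l₁.map g).reverse ++ []).map h).reverse ++ []) =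
        single M₂.k₀ ((l₁.map g).map h) := by
      unfold single
      congr 1
      simp
    have e3 : (((l₁.map g).reverse ++ [] : List X).length + 1) =
        (l₁.map g).reverse.length + 1 := by simp
    rw [e3] at s₃
    rw [e2] at s₃
    have s := s₁.trans (s₂.trans (s₃.trans ((congrArg (fun S => Steps (compM M₁.m M₂.m M₁.k₁
      M₂.k₀ g h d M₂.main) n₂ ⟨some (Sum.inr (Sum.inl M₂.main)),
        (M₁.initialState, (M₂.initialState, none)),
        stc S (single M₂.k₀ ((l₁.map g).map h)) []⟩ ⟨none,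
        (M₁.initialState, (M₂.initialState, none)), stc S (single M₂.k₁ l₂) []⟩)
        e1.symm).mp s₄)))
    rw [e1, stc_single2] at s
    unfold conv1 at s
    simp only [Option.elim_some, stc_single1] at s
    exact s

theorem eval_mono (p : Polynomial ℕ) : Monotone fun n : ℕ => p.eval n := by
  intro a b h
  simp only
  rw [Polynomial.eval_eq_sum, Polynomial.eval_eq_sum]
  exact Finset.sum_le_sum fun i _ => Nat.mul_le_mul_left _ (Nat.pow_le_pow_left h i)

/-- **The composition of two functions that are computable in polynomial time is computable in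
polynomial time.** -/
theorem polyTime_comp {α β γ αΓ βΓ γΓ : Type} [Inhabited βΓ] {ea : α → List αΓ}
    {eb : β → List βΓ} {ec : γ → List γΓ} {f : α → β} {f' : β → γ}
    (h₁ : TM2ComputableInPolyTime ea eb f) (h₂ : TM2ComputableInPolyTime eb ec f') :
    Nonempty (TM2ComputableInPolyTime ea ec (f' ∘ f)) := by
  have : Fintype βΓ := @Fintype.ofEquiv _ _ h₂.tm.Γk₀Fin h₂.inputAlphabet
  obtain ⟨b, hb⟩ : ∃ b, ∀ l, pushes (h₁.tm.m l) ≤ b := by
    have : Finite h₁.tm.Λ := @Finite.of_fintype _ h₁.tm.ΛFin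
    obtain ⟨b, hb⟩ := (Set.finite_range fun l => pushes (h₁.tm.m l)).bddAbove
    exact ⟨b, fun l => hb ⟨l, rfl⟩⟩
  let Lb : Polynomial ℕ := Polynomial.X + Polynomial.C b * h₁.time
  let P : Polynomial ℕ := h₁.time + 2 * (Lb + 1) + h₂.time.comp Lb
  have key : ∀ a, Nonempty (TM2OutputsInTime (compTM h₁.tm h₂.tm h₁.outputAlphabet
      h₂.inputAlphabet.symm default) ((ea a).map h₁.inputAlphabet.invFun)
      (some ((ec (f' (f a))).map h₂.outputAlphabet.invFun)) (P.eval (ea a).length)) := by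
    intro a
    have o₁ : Nonempty (TM2OutputsInTime h₁.tm _ _ _) := ⟨h₁.outputsFun a⟩
    have o₂ : Nonempty (TM2OutputsInTime h₂.tm _ _ _) := ⟨h₂.outputsFun (f a)⟩
    have hl := output_length hb o₁
    simp only [List.length_map] at hl
    have e : (((eb (f a)).map h₁.outputAlphabet.invFun).map h₁.outputAlphabet).map
        h₂.inputAlphabet.symm = (eb (f a)).map h₂.inputAlphabet.invFun := by
      rw [List.map_map, List.map_map]
      refine List.map_congr_left fun y _ => ?_
      show h₂.inputAlphabet.symm (h₁.outputAlphabet (h₁.outputAlphabet.symm y)) = _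
      rw [Equiv.apply_symm_apply]
      rfl
    rw [← e] at o₂
    have o := compTM_outputs (d := default) o₁ o₂
    obtain ⟨n, hn, hs⟩ := outputs_iff.1 o
    refine outputs_iff.2 ⟨n, hn.trans ?_, hs⟩
    have h3 : Lb.eval (ea a).length = (ea a).length + b * h₁.time.eval (ea a).length := by
      simp [Lb]
    have h4 : P.eval (ea a).length = h₁.time.eval (ea a).length +
        2 * (Lb.eval (ea a).length + 1) + h₂.time.eval (Lb.eval (ea a).length) := by
      simp [P, Polynomial.eval_comp]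
    rw [h4, h3]
    have h5 : h₂.time.eval (eb (f a)).length ≤
        h₂.time.eval ((ea a).length + b * h₁.time.eval (ea a).length) := eval_mono _ hl
    rw [List.length_map]
    omega
  exact ⟨{
    tm := compTM h₁.tm h₂.tm h₁.outputAlphabet h₂.inputAlphabet.symm default
    inputAlphabet := h₁.inputAlphabet
    outputAlphabet := h₂.outputAlphabet
    time := P
    outputsFun := fun a => (key a).some }⟩

end Pool.Agent.Lib.CookLevin
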