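import Pool.Agent.Lib.CookLevin.Comp2

/-!
# Changing the alphabet
-/

namespace Pool.Agent.Lib.CookLevin

open Function Turing StateTransition

theorem idComputer_outputs {X : Type} [Fintype X] (l : List X) :
    Nonempty (TM2OutputsInTime (idComputer X) l (some l) 1) := by
  refine outputs_iff.2 ⟨1, le_rfl, ?_⟩
  refine Steps.one ?_
  rfl

/-- Changing the alphabet of an encoding is computable in polynomial time. -/
theorem polyTime_map {α X Y : Type} [Fintype X] [Fintype Y] [Inhabited Y] (ea : α → List X)
    (h : X → Y) : Nonempty (TM2ComputableInPolyTime ea (fun a => (ea a).map h) id) := by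
  let P : Polynomial ℕ := 2 * Polynomial.X + 4
  have key : ∀ a, Nonempty (TM2OutputsInTime (compTM (idComputer X) (idComputer Y) h id default)
      ((ea a).map (Equiv.refl X).invFun)
      (some (((ea a).map h).map (Equiv.refl Y).invFun)) (P.eval (ea a).length)) := by
    intro a
    have o₁ := idComputer_outputs (ea a)
    have o₂ := idComputer_outputs ((ea a).map h)
    have e1 : (((ea a).map h).map (id : Y → Y)) = (ea a).map h := List.map_id _
    rw [← e1] at o₂
    have o := compTM_outputs (M₁ := idComputer X) (M₂ := idComputer Y) (g := h) (h := id)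
      (d := default) o₁ (l₂ := ((ea a).map h).map id) o₂
    obtain ⟨n, hn, hs⟩ := outputs_iff.1 o
    have e2 : (ea a).map (Equiv.refl X).invFun = ea a := List.map_id _
    have e3 : ((ea a).map h).map (Equiv.refl Y).invFun = ((ea a).map h).map id := rfl
    have h1 : P.eval (ea a).length = 2 * (ea a).length + 4 := by simp [P]
    have h2 : n ≤ P.eval (ea a).length := by
      refine hn.trans ?_
      show 1 + 2 * ((ea a).length + 1) + 1 ≤ _
      rw [h1]
      omega
    have h3 : ∀ l : List X, l = ea a → ∀ l' : List Y, l' = ((ea a).map h).map id →
        Nonempty (TM2OutputsInTime (compTM (idComputer X) (idComputer Y) h id default) l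
          (some l') (P.eval (ea a).length)) := by
      rintro _ rfl _ rfl
      exact outputs_iff.2 ⟨n, h2, hs⟩
    exact h3 _ e2 _ e3
  exact ⟨{
    tm := compTM (idComputer X) (idComputer Y) h id default
    inputAlphabet := Equiv.refl X
    outputAlphabet := Equiv.refl Y
    time := P
    outputsFun := fun a => (key a).some }⟩

end Pool.Agent.Lib.CookLevin
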