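import Pool.Agent.Lib.CookLevin.Printer2
import Pool.Agent.Lib.CookLevin.Mapper

/-!
# The formula of a computation is computable in polynomial time
-/

set_option linter.unusedSectionVars false

namespace Pool.Agent.Lib.CookLevin

open Function Pool.Agent.Lib.MP_c85d9c_lc SM

/-! ### From specifications to machines -/

theorem start_eq_st {A R : Type} [DecidableEq R] [Inhabited A] (l : List A) :
    (Cmd.start l : Store A R) = Cmd.st l (fun _ => 0) [] := by
  unfold Cmd.start
  funext k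
  by_cases hk : k = mn none
  · subst hk; rw [update_self]; rfl
  · rw [update_of_ne hk]
    rcases k with ⟨_ | _, _ | r⟩ | _ | _
    · exact absurd rfl hk
    all_goals rfl

theorem computable_of_ps {A R α β : Type} [DecidableEq R] [Inhabited A] [Fintype A] [Fintype R]
    {ea : α → List A} {eb : β → List A} {f : α → β} {c : Cmd A R} (hw : Cmd.WF c)
    (h : PS (fun a => (ea a).length) ea c (fun _ _ => 0) (fun _ _ => 0) (fun a => eb (f a))) :
    Nonempty (Turing.TM2ComputableInPolyTime ea eb f) := by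
  obtain ⟨t, ⟨B, ⟨p, hp⟩, ht⟩, hs⟩ := h
  have ht' : ∀ a, t a ≤ p.eval (ea a).length := fun a => (ht a).trans (hp _)
  refine Cmd.computable c hw (2 * p + Polynomial.X + 2) ?_ ?_ ?_
  · intro a r
    rw [start_eq_st, (hs a []).1]
    rfl
  · intro a
    rw [start_eq_st, (hs a []).1]
    show (eb (f a)).reverse ++ [] = _
    rw [List.append_nil]
  · intro a
    have h1 : Cmd.cost c (Cmd.st (ea a) (fun _ => 0) []) ≤ t a := (hs a []).2
    have h2 := Cmd.length_le_cost c (Cmd.start (ea a))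
    rw [start_eq_st] at h2 ⊢
    rw [(hs a []).1] at h2
    have h3 : (Cmd.st (ea a) (fun _ : R => 0) ((eb (f a)).reverse ++ []) ou).length =
        (eb (f a)).length := by
      show ((eb (f a)).reverse ++ []).length = _
      simp
    have h4 : (Cmd.st (ea a) (fun _ : R => 0) ([] : List A) ou).length = 0 := rfl
    rw [h3, h4] at h2
    have h5 := ht' a
    simp only [Polynomial.eval_add, Polynomial.eval_mul, Polynomial.eval_X,
      Polynomial.eval_ofNat]
    omega

variable {Γ : Type} [Fintype Γ]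

variable {M : SM} (lm lt : List ℕ) (sym : Γ → M.G) (a b : M.G) (k₁ : M.K) (z : M.G)

/-- The whole program. -/
noncomputable def prAll : PrH Γ :=
  Cmd.seq (prA lm lt) (Cmd.seq (prB sym a b) (Cmd.seq (prC M) (Cmd.seq (famP (M.finalT k₁ z))
    (Cmd.seq (Cmd.clr Rh.X) (Cmd.seq (Cmd.clr Rh.M) (Cmd.seq (Cmd.clr Rh.T) (Cmd.seq
    (Cmd.clr Rh.W) (Cmd.seq (Cmd.clr Rh.P) (Cmd.clr Rh.U)))))))))

theorem encI_fm (x : List Γ) : encI Γ (fm lm lt sym a b k₁ z x) =
    (encI Γ (fam 0 0 0 M.initQ) ++ (encI Γ (famX 0 (x.map sym)) ++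
      (((List.range (cm lm x)).flatMap fun j => encI Γ (fam 0 0 (x.length + j) (M.initC a b))) ++
      (((List.range (cT lm lt x)).flatMap
          fun j => encI Γ (fam 0 0 (x.length + cm lm x + j) M.initN)) ++
        (encI Γ (fam 0 0 (cW lm lt x) M.initN) ++
      (((List.range (cW lm lt x)).flatMap fun j => encI Γ (fam 0 0 j M.initO)) ++
        encI Γ (fam 0 0 (cW lm lt x) M.initO))))))) ++
    (((List.range (cT lm lt x)).flatMap fun t =>
      encI Γ (fam (t * (cW lm lt x + 1)) ((t + 1) * (cW lm lt x + 1)) 0 M.stepA) ++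
        (List.range (cW lm lt x)).flatMap fun i =>
          encI Γ (fam (t * (cW lm lt x + 1)) ((t + 1) * (cW lm lt x + 1)) i M.stepB)) ++
      encI Γ (fam (cT lm lt x * (cW lm lt x + 1)) ((cT lm lt x + 1) * (cW lm lt x + 1)) 0
        (M.finalT k₁ z))) := by
  have e : x.length + cm lm x + cT lm lt x = cW lm lt x := rfl
  have ef : ∀ P U, fam P U 0 (M.finalT k₁ z) = fam P 0 0 (M.finalT k₁ z) := by
    intro P U; rfl
  unfold fm form
  simp only [encI_append, encI_flatMap, List.length_map, List.range_succ, List.flatMap_append,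
    List.flatMap_cons, List.flatMap_nil, List.append_nil, List.append_assoc, e]
  rw [ef, ef _ ((cT lm lt x + 1) * (cW lm lt x + 1))]

theorem ps_prAll : PS List.length inpX (prAll lm lt sym a b k₁ z : PrH Γ) (fun _ _ => 0)
    (fun _ _ => 0) (fun x => encI Γ (fm lm lt sym a b k₁ z x)) := by
  have bX : PB List.length fun x : List Γ => x.length + cm lm x := pb_n.add (pb_m lm)
  have bM := pb_m (Γ := Γ) lm
  have bT := pb_T (Γ := Γ) lm lt
  have bW := pb_W (Γ := Γ) lm lt
  have b0 : PB List.length fun _ : List Γ => 0 := PB.const 0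
  have bP : PB List.length fun x : List Γ => cT lm lt x * (cW lm lt x + 1) :=
    bT.mul (bW.add (PB.const 1))
  have bU : PB List.length fun x : List Γ => (cT lm lt x + 1) * (cW lm lt x + 1) :=
    (bT.add (PB.const 1)).mul (bW.add (PB.const 1))
  have h1 := ps_prA (Γ := Γ) lm lt
  have h2 := ps_prB lm lt sym a b
  have h3 := ps_prC (Γ := Γ) (M := M) lm lt
  have h4 := ps_famP (inp := inpX) (bd_rh bX bM bT bW bP bU b0 b0 b0) (M.finalT k₁ z)
  have c1 := PS.clr (inp := inpX) (ρ := fun x => rh (x.length + cm lm x) (cm lm x) (cT lm lt x)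
    (cW lm lt x) (cT lm lt x * (cW lm lt x + 1)) ((cT lm lt x + 1) * (cW lm lt x + 1)) 0 0 0)
    Rh.X bX
  have c2 := PS.clr (inp := inpX) (ρ := fun x => rh 0 (cm lm x) (cT lm lt x)
    (cW lm lt x) (cT lm lt x * (cW lm lt x + 1)) ((cT lm lt x + 1) * (cW lm lt x + 1)) 0 0 0)
    Rh.M bM
  have c3 := PS.clr (inp := inpX) (ρ := fun x : List Γ => rh 0 0 (cT lm lt x)
    (cW lm lt x) (cT lm lt x * (cW lm lt x + 1)) ((cT lm lt x + 1) * (cW lm lt x + 1)) 0 0 0)
    Rh.T bT
  have c4 := PS.clr (inp := inpX) (ρ := fun x : List Γ => rh 0 0 0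
    (cW lm lt x) (cT lm lt x * (cW lm lt x + 1)) ((cT lm lt x + 1) * (cW lm lt x + 1)) 0 0 0)
    Rh.W bW
  have c5 := PS.clr (inp := inpX) (ρ := fun x : List Γ => rh 0 0 0
    0 (cT lm lt x * (cW lm lt x + 1)) ((cT lm lt x + 1) * (cW lm lt x + 1)) 0 0 0)
    Rh.P bP
  have c6 := PS.clr (inp := inpX) (ρ := fun x : List Γ => rh 0 0 0
    0 0 ((cT lm lt x + 1) * (cW lm lt x + 1)) 0 0 0)
    Rh.U bU
  have c1' := c1.congr (fun _ => rfl) (fun _ => by rw [rh_X]) (fun _ => rfl)
  have c2' := c2.congr (fun _ => rfl) (fun _ => by rw [rh_M]) (fun _ => rfl)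
  have c3' := c3.congr (fun _ => rfl) (fun _ => by rw [rh_T]) (fun _ => rfl)
  have c4' := c4.congr (fun _ => rfl) (fun _ => by rw [rh_W]) (fun _ => rfl)
  have c5' := c5.congr (fun _ => rfl) (fun _ => by rw [rh_P]) (fun _ => rfl)
  have c6' := c6.congr (fun _ => rfl) (fun _ => by rw [rh_U]) (fun _ => rfl)
  have e0 : (fun _ => 0 : Rh → ℕ) = rh 0 0 0 0 0 0 0 0 0 := by
    funext r; cases r <;> rfl
  refine (h1.seq (h2.seq (h3.seq (h4.seq (c1'.seq (c2'.seq (c3'.seq (c4'.seq
    (c5'.seq c6'))))))))).congr (fun _ => e0) (fun _ => e0) (fun x => ?_)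
  rw [encI_fm]
  simp only [List.append_nil, List.nil_append]
  rfl

/-! ### The program is well-formed -/

theorem wf_seqs' {l : List (PrH Γ)} (h : ∀ c ∈ l, Cmd.WF c) : Cmd.WF (Cmd.seqs l) := by
  induction l with
  | nil => trivial
  | cons c l ih => exact ⟨h c (by simp), ih fun d hd => h d (by simp [hd])⟩

theorem free_seqs' {l : List (PrH Γ)} {k : Option Rh} (h : ∀ c ∈ l, Cmd.Free c k) :
    Cmd.Free (Cmd.seqs l) k := by
  induction l with
  | nil => trivial
  | cons c l ih => exact ⟨h c (by simp), ih fun d hd => h d (by simp [hd])⟩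

theorem wf_outs' (l : List (Γ ⊕ Sym)) : Cmd.WF (Cmd.outs l : PrH Γ) := by
  refine wf_seqs' fun c hc => ?_
  rw [List.mem_map] at hc
  obtain ⟨a, _, rfl⟩ := hc
  trivial

theorem free_outs' (l : List (Γ ⊕ Sym)) (k : Option Rh) : Cmd.Free (Cmd.outs l : PrH Γ) k := by
  refine free_seqs' fun c hc => ?_
  rw [List.mem_map] at hc
  obtain ⟨a, _, rfl⟩ := hc
  trivial

theorem wf_ticks (n : ℕ) (r : Rh) : Cmd.WF (ticks n r : PrH Γ) :=
  fun _ => ⟨free_outs' _ _, wf_outs' _⟩

theorem free_ticks (n : ℕ) {r : Rh} {k : Option Rh} (h : k ≠ some r) :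
    Cmd.Free (ticks n r : PrH Γ) k := ⟨h, fun _ => free_outs' _ _⟩

theorem wf_litP (τ : M.TL) : Cmd.WF (litP τ : PrH Γ) := by
  refine ⟨wf_ticks _ _, ?_, wf_outs' _⟩
  split
  · exact wf_ticks _ _
  · trivial

theorem free_litP' (τ : M.TL) {k : Option Rh} (hP : k ≠ some Rh.P) (hU : k ≠ some Rh.U)
    (hI : k ≠ some Rh.I) : Cmd.Free (litP τ : PrH Γ) k := by
  refine ⟨?_, ?_, free_outs' _ _⟩
  · refine free_ticks _ ?_
    split <;> assumption
  · split
    · exact free_ticks _ hI
    · trivial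

theorem wf_clauseP (t : List M.TL) : Cmd.WF (clauseP t : PrH Γ) := by
  refine ⟨wf_seqs' fun c hc => ?_, trivial⟩
  obtain ⟨τ, _, rfl⟩ := List.mem_map.1 hc
  exact wf_litP τ

theorem free_clauseP (t : List M.TL) {k : Option Rh} (hP : k ≠ some Rh.P) (hU : k ≠ some Rh.U)
    (hI : k ≠ some Rh.I) : Cmd.Free (clauseP t : PrH Γ) k := by
  refine ⟨free_seqs' fun c hc => ?_, trivial⟩
  obtain ⟨τ, _, rfl⟩ := List.mem_map.1 hc
  exact free_litP' τ hP hU hI

theorem wf_famP (F : List (List M.TL)) : Cmd.WF (famP F : PrH Γ) := by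
  refine wf_seqs' fun c hc => ?_
  obtain ⟨τ, _, rfl⟩ := List.mem_map.1 hc
  exact wf_clauseP τ

theorem free_famP (F : List (List M.TL)) {k : Option Rh} (hP : k ≠ some Rh.P)
    (hU : k ≠ some Rh.U) (hI : k ≠ some Rh.I) : Cmd.Free (famP F : PrH Γ) k := by
  refine free_seqs' fun c hc => ?_
  obtain ⟨τ, _, rfl⟩ := List.mem_map.1 hc
  exact free_clauseP τ hP hU hI

theorem free_inc {r : Rh} {k : Option Rh} (h : k ≠ some r) : Cmd.Free (Cmd.inc r : PrH Γ) k := h

theorem free_clr {r : Rh} {k : Option Rh} (h : k ≠ some r) : Cmd.Free (Cmd.clr r : PrH Γ) k := h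

theorem wf_addY (c : ℕ) : Cmd.WF (addY c : PrH Γ) := by
  refine wf_seqs' fun c hc => ?_
  obtain ⟨τ, _, rfl⟩ := List.mem_map.1 hc
  trivial

theorem wf_horP (l : List ℕ) : Cmd.WF (horP l : PrH Γ) := by
  induction l with
  | nil => trivial
  | cons c l ih =>
    exact ⟨ih, fun _ => ⟨⟨by simp, fun _ => free_inc (by simp)⟩,
      fun _ => ⟨free_inc (by simp), trivial⟩⟩, trivial,
      fun _ => ⟨free_inc (by simp), trivial⟩, trivial, wf_addY c⟩

theorem wf_prA : Cmd.WF (prA lm lt : PrH Γ) :=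
  ⟨fun _ => ⟨free_inc (by simp), trivial⟩, wf_horP _,
    fun _ => ⟨⟨free_inc (by simp), free_inc (by simp)⟩, trivial, trivial⟩, trivial, wf_horP _,
    fun _ => ⟨⟨free_inc (by simp), free_inc (by simp)⟩, trivial, trivial⟩, trivial,
    fun _ => ⟨free_inc (by simp), trivial⟩⟩

theorem wf_loopI {r : Rh} (hP : r ≠ Rh.P) (hU : r ≠ Rh.U) (hI : r ≠ Rh.I)
    (F : List (List M.TL)) :
    Cmd.WF (Cmd.each (some r) fun _ => Cmd.seq (famP F) (Cmd.inc Rh.I) : PrH Γ) :=
  fun _ => ⟨⟨free_famP F (by simpa using hP) (by simpa using hU) (by simpa using hI),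
    free_inc (by simpa using hI)⟩, wf_famP F, trivial⟩

theorem wf_prB : Cmd.WF (prB sym a b : PrH Γ) := by
  refine ⟨wf_famP _, fun s => ?_, wf_loopI (by simp) (by simp) (by simp) _,
    wf_loopI (by simp) (by simp) (by simp) _, wf_famP _, trivial,
    wf_loopI (by simp) (by simp) (by simp) _, wf_famP _, trivial⟩
  rcases s with g | s
  · exact ⟨⟨free_famP _ (by simp) (by simp) (by simp), free_inc (by simp)⟩, wf_famP _, trivial⟩
  · exact ⟨trivial, trivial⟩

theorem wf_prC : Cmd.WF (prC M : PrH Γ) := by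
  refine ⟨fun _ => ⟨free_inc (by simp), trivial⟩, trivial, fun _ => ⟨?_, ?_⟩⟩
  · exact ⟨free_famP _ (by simp) (by simp) (by simp),
      ⟨by simp, fun _ => ⟨free_famP _ (by simp) (by simp) (by simp), free_inc (by simp)⟩⟩,
      free_clr (by simp), ⟨by simp, fun _ => ⟨free_inc (by simp), free_inc (by simp)⟩⟩,
      free_inc (by simp), free_inc (by simp)⟩
  · exact ⟨wf_famP _, wf_loopI (by simp) (by simp) (by simp) _, trivial,
      fun _ => ⟨⟨free_inc (by simp), free_inc (by simp)⟩, trivial, trivial⟩, trivial, trivial⟩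

theorem wf_prAll : Cmd.WF (prAll lm lt sym a b k₁ z : PrH Γ) :=
  ⟨wf_prA _ _, wf_prB _ _ _, wf_prC, wf_famP _, trivial, trivial, trivial, trivial, trivial,
    trivial⟩

/-- **The formula of a computation is computable in polynomial time.** -/
theorem fm_computable : Nonempty (Turing.TM2ComputableInPolyTime
    (id : List Γ → List Γ) Formula.encode (fm lm lt sym a b k₁ z)) := by
  have h1 : Nonempty (Turing.TM2ComputableInPolyTime (id : List Γ → List Γ)
      (inpX : List Γ → List (Γ ⊕ Sym)) id) := polyTime_map id Sum.inl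
  have h2 : Nonempty (Turing.TM2ComputableInPolyTime (inpX : List Γ → List (Γ ⊕ Sym))
      (encI Γ) (fm lm lt sym a b k₁ z)) := by
    refine computable_of_ps (wf_prAll lm lt sym a b k₁ z) ?_
    have := ps_prAll lm lt sym a b k₁ z
    have e : (fun x : List Γ => (inpX x).length) = List.length := by
      funext x; simp
    rw [e]
    exact this
  have h3 : Nonempty (Turing.TM2ComputableInPolyTime (encI Γ) Formula.encode id) := by
    have := polyTime_map (encI Γ) (Sum.elim (fun _ : Γ => (default : Sym)) id)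
    have e : (fun φ => (encI Γ φ).map (Sum.elim (fun _ : Γ => (default : Sym)) id)) =
        Formula.encode := by
      funext φ
      unfold encI
      rw [List.map_map]
      exact List.map_id _
    rw [e] at this
    exact this
  obtain ⟨g1⟩ := h1
  obtain ⟨g2⟩ := h2
  obtain ⟨g3⟩ := h3
  have h4 : Nonempty (Turing.TM2ComputableInPolyTime (id : List Γ → List Γ) (encI Γ)
      (fm lm lt sym a b k₁ z ∘ id)) := polyTime_comp g1 g2
  obtain ⟨g4⟩ := h4
  have h5 : Nonempty (Turing.TM2ComputableInPolyTime (id : List Γ → List Γ) Formula.encode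
      (id ∘ (fm lm lt sym a b k₁ z ∘ id))) := polyTime_comp g4 g3
  exact h5

end Pool.Agent.Lib.CookLevin
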