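import Pool.Agent.Lib.CookLevin.NP
import Pool.Agent.Lib.CookLevin.Printer3

/-!
# The Cook–Levin theorem for the Turing machines of Mathlib
-/

open Turing

namespace Pool.Agent.Lib.CookLevin

open Pool.Agent.Lib.MP_c85d9c_lc SM

theorem fm_existential {Γ : Type} {M : SM} (lm lt : List ℕ) (sym : Γ → M.G) (a b : M.G)
    (k₁ : M.K) (z : M.G) (x : List Γ) : (fm lm lt sym a b k₁ z x).IsExistential :=
  existential_form

theorem RelS.top' {K : Type} [DecidableEq K] {Γ : K → Type} {P : Set (Σ k, Γ k)} {k : K}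
    {S' : List P} {S : List (Γ k)} (h1 : RelS k S' S) (a : Γ k) (h : (⟨k, a⟩ : Σ k, Γ k) ∈ P) :
    S'.head? = some (⟨⟨k, a⟩, h⟩ : P) ↔ S.head? = some a := by
  rw [List.head?_eq_getElem? (l := S')]
  exact h1.top a h

/-- **The Cook–Levin theorem.** -/
theorem cook_levin {Γ : Type} [Fintype Γ] {L : Set (List Γ)} (hL : InNP L) :
    ∃ f : List Γ → Formula,
      Nonempty (TM2ComputableInPolyTime (id : List Γ → List Γ) Formula.encode f) ∧
      ∀ x, (f x).IsExistential ∧ (x ∈ L ↔ (f x).Satisfiable) := by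
  obtain ⟨p, V, ⟨N⟩, hV⟩ := hL
  have : Finite (N.tm.Γ N.tm.k₀) := @Finite.of_fintype _ N.tm.Γk₀Fin
  have : Finite N.tm.K := @Finite.of_fintype _ N.tm.kFin
  have : Finite N.tm.Λ := @Finite.of_fintype _ N.tm.ΛFin
  have : Finite N.tm.σ := @Finite.of_fintype _ N.tm.σFin
  obtain ⟨b, hb⟩ : ∃ b, ∀ l, height (N.tm.m l) ≤ b := by
    obtain ⟨b, hb⟩ := (Set.finite_range fun l => height (N.tm.m l)).bddAbove
    exact ⟨b, fun l => hb ⟨l, rfl⟩⟩
  obtain ⟨lm, hlm⟩ := exists_hor p
  obtain ⟨lt, hlt⟩ := exists_hor (Polynomial.C b * N.time)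
  let a₁ : N.tm.Γ N.tm.k₁ := N.outputAlphabet.symm false
  let x₁ : Σ k, N.tm.Γ k := ⟨N.tm.k₁, a₁⟩
  let M : SM := smOf N.tm.m N.tm.main N.tm.initialState N.tm.k₀ x₁
  let ch : Γ ⊕ Bool → M.G := fun g => (⟨⟨N.tm.k₀, N.inputAlphabet.symm g⟩, Or.inl ⟨_, rfl⟩⟩ :
    syset N.tm.m N.tm.k₀ x₁)
  let z : M.G := (⟨⟨N.tm.k₁, a₁⟩, Or.inr (Or.inl rfl)⟩ : syset N.tm.m N.tm.k₀ x₁)
  refine ⟨fm (M := M) lm lt (fun g => ch (Sum.inl g)) (ch (Sum.inr false)) (ch (Sum.inr true))
    N.tm.k₁ z, fm_computable _ _ _ _ _ _ _, fun x => ⟨fm_existential _ _ _ _ _ _ _ _, ?_⟩⟩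
  refine (hV x).trans (Iff.trans ?_ (form_satisfiable (M := M)).symm)
  refine exists_congr fun w => ?_
  have hm : cm lm x = p.eval x.length := hlm _
  rw [hm]
  refine and_congr_right fun hw => ?_
  have e0 : ∀ l : List (Γ ⊕ Bool), l.map ch = inOf N.tm.m N.tm.main N.tm.initialState N.tm.k₀ x₁
      (l.map N.inputAlphabet.invFun) := by
    intro l
    induction l with
    | nil => rfl
    | cons c l ih => exact congrArg (List.cons (ch c)) ih
  have e1 : (x.map (fun g => ch (Sum.inl g)) ++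
      w.map fun c => if c then ch (Sum.inr true) else ch (Sum.inr false)) =
      inOf N.tm.m N.tm.main N.tm.initialState N.tm.k₀ x₁
        ((encPair (x, w)).map N.inputAlphabet.invFun) := by
    rw [← e0]
    unfold encPair
    rw [List.map_append, List.map_map, List.map_map]
    refine congrArg (List.map (ch ∘ Sum.inl) x ++ ·) ?_
    refine List.map_congr_left fun c _ => ?_
    cases c <;> rfl
  have e2 : cT lm lt x = b * N.time.eval (x.length + p.eval x.length) := by
    unfold cT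
    rw [hlt, hm]
    simp
  have h7 : TM2OutputsInTime N.tm ((encPair (x, w)).map N.inputAlphabet.invFun)
      (some [N.outputAlphabet.symm (V (x, w))]) (N.time.eval (encPair (x, w)).length) :=
    N.outputsFun (x, w)
  have hlen : (encPair (x, w)).length ≤ x.length + p.eval x.length := by
    unfold encPair
    simp only [List.length_append, List.length_map]
    omega
  have h8 := output_top N.tm b hb _ _ _ h7 (cT lm lt x) (by
    rw [e2]
    exact Nat.mul_le_mul_left b (eval_mono _ hlen))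
  have h9 := (rel_conf N.tm.m N.tm.main N.tm.initialState N.tm.k₀ x₁
    ((encPair (x, w)).map N.inputAlphabet.invFun) (cT lm lt x)).2.2 N.tm.k₁
  have h10 := h9.top' a₁ (Or.inr (Or.inl rfl))
  rw [h8] at h10
  rw [e1]
  refine Iff.trans ?_ (not_congr h10).symm
  simp only [List.head?_cons, Option.some.injEq, a₁, EmbeddingLike.apply_eq_iff_eq]
  cases V (x, w) <;> simp

end Pool.Agent.Lib.CookLevin
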