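import Mathlib

/-!
# Languages decided in nondeterministic polynomial time
-/

namespace Pool.Agent.Lib.CookLevin

/-- A pair consisting of an input and a certificate, written as a word: the input followed by the
certificate, over the disjoint union of the two alphabets. -/
def encPair {Γ : Type} (p : List Γ × List Bool) : List (Γ ⊕ Bool) :=
  p.1.map Sum.inl ++ p.2.map Sum.inr

/-- The language `L` is in the class NP: there are a polynomial `p` and a predicate `V` on pairs
(input, certificate) that is decided in polynomial time by a Turing machine, such that a word `x`
belongs to `L` if and only if `V (x, w)` is true for some binary word `w` of length at most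
`p (|x|)`. -/
def InNP {Γ : Type} (L : Set (List Γ)) : Prop :=
  ∃ (p : Polynomial ℕ) (V : List Γ × List Bool → Bool),
    Nonempty (Turing.TM2ComputableInPolyTime encPair Computability.encodeBool V) ∧
    ∀ x, x ∈ L ↔ ∃ w : List Bool, w.length ≤ p.eval x.length ∧ V (x, w) = true

end Pool.Agent.Lib.CookLevin
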