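import Pool.Agent.Lib.MP_c85d9c_lc.Spec
import Pool.Agent.Lib.CookLevin.Comp2

/-!
# Specifications with an unspecified polynomial time bound
-/

set_option linter.unusedSectionVars false

namespace Pool.Agent.Lib.CookLevin

open Function Pool.Agent.Lib.MP_c85d9c_lc

/-- Polynomially bounded functions. -/
def PolyBdd (f : ℕ → ℕ) : Prop := ∃ p : Polynomial ℕ, ∀ n, f n ≤ p.eval n

theorem PolyBdd.mono {f g : ℕ → ℕ} (hg : PolyBdd g) (h : ∀ n, f n ≤ g n) : PolyBdd f := by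
  obtain ⟨p, hp⟩ := hg
  exact ⟨p, fun n => (h n).trans (hp n)⟩

theorem PolyBdd.const (c : ℕ) : PolyBdd fun _ => c := ⟨Polynomial.C c, fun n => by simp⟩

theorem PolyBdd.id : PolyBdd fun n => n := ⟨Polynomial.X, fun n => by simp⟩

theorem PolyBdd.add {f g : ℕ → ℕ} (hf : PolyBdd f) (hg : PolyBdd g) :
    PolyBdd fun n => f n + g n := by
  obtain ⟨p, hp⟩ := hf
  obtain ⟨q, hq⟩ := hg
  exact ⟨p + q, fun n => by rw [Polynomial.eval_add]; exact Nat.add_le_add (hp n) (hq n)⟩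

theorem PolyBdd.mul {f g : ℕ → ℕ} (hf : PolyBdd f) (hg : PolyBdd g) :
    PolyBdd fun n => f n * g n := by
  obtain ⟨p, hp⟩ := hf
  obtain ⟨q, hq⟩ := hg
  exact ⟨p * q, fun n => by rw [Polynomial.eval_mul]; exact Nat.mul_le_mul (hp n) (hq n)⟩

theorem PolyBdd.comp {f g : ℕ → ℕ} (hf : PolyBdd f) (hg : PolyBdd g) :
    PolyBdd fun n => f (g n) := by
  obtain ⟨p, hp⟩ := hf
  obtain ⟨q, hq⟩ := hg
  refine ⟨p.comp q, fun n => ?_⟩
  rw [Polynomial.eval_comp]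
  exact (hp _).trans (eval_mono p (hq n))

theorem PolyBdd.poly (p : Polynomial ℕ) : PolyBdd fun n => p.eval n := ⟨p, fun _ => le_rfl⟩

section

variable {ι : Type} (len : ι → ℕ)

/-- Polynomially bounded functions on a set of objects with lengths. -/
def PB (f : ι → ℕ) : Prop := ∃ B, PolyBdd B ∧ ∀ j, f j ≤ B (len j)

variable {len}

theorem PB.mono {f g : ι → ℕ} (hg : PB len g) (h : ∀ j, f j ≤ g j) : PB len f := by
  obtain ⟨B, h1, h2⟩ := hg
  exact ⟨B, h1, fun j => (h j).trans (h2 j)⟩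

theorem PB.const (c : ℕ) : PB len fun _ => c := ⟨_, PolyBdd.const c, fun _ => le_rfl⟩

theorem PB.self : PB len len := ⟨_, PolyBdd.id, fun _ => le_rfl⟩

theorem PB.add {f g : ι → ℕ} (hf : PB len f) (hg : PB len g) : PB len fun j => f j + g j := by
  obtain ⟨B, h1, h2⟩ := hf
  obtain ⟨C, h3, h4⟩ := hg
  exact ⟨_, h1.add h3, fun j => Nat.add_le_add (h2 j) (h4 j)⟩

theorem PB.mul {f g : ι → ℕ} (hf : PB len f) (hg : PB len g) : PB len fun j => f j * g j := by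
  obtain ⟨B, h1, h2⟩ := hf
  obtain ⟨C, h3, h4⟩ := hg
  exact ⟨_, h1.mul h3, fun j => Nat.mul_le_mul (h2 j) (h4 j)⟩

theorem PB.poly (p : Polynomial ℕ) {f : ι → ℕ} (hf : PB len f) : PB len fun j => p.eval (f j) := by
  obtain ⟨B, h1, h2⟩ := hf
  exact ⟨_, (PolyBdd.poly p).comp h1, fun j => eval_mono p (h2 j)⟩

theorem PB.comp {ι' : Type} (u : ι' → ι) {f : ι → ℕ} (hf : PB len f) :
    PB (fun j => len (u j)) fun j => f (u j) := by
  obtain ⟨B, h1, h2⟩ := hf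
  exact ⟨B, h1, fun j => h2 (u j)⟩

end

variable {A R : Type} [DecidableEq R] [Inhabited A] {ι : Type}

/-- A specification for all objects `j : ι`, with a time bound that is a polynomial in the length
of `j`. -/
def PS (len : ι → ℕ) (inp : ι → List A) (c : Cmd A R) (ρ ρ' : ι → R → ℕ) (w : ι → List A) :
    Prop :=
  ∃ t : ι → ℕ, PB len t ∧ ∀ j, Cmd.Spec (inp j) c (ρ j) (ρ' j) (w j) (t j)

variable {len : ι → ℕ} {inp : ι → List A}

theorem PS.skip {ρ : ι → R → ℕ} : PS len inp (Cmd.skip : Cmd A R) ρ ρ (fun _ => []) :=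
  ⟨_, PB.const 1, fun _ => Cmd.Spec.skip⟩

theorem PS.out {ρ : ι → R → ℕ} (a : A) : PS len inp (Cmd.out a : Cmd A R) ρ ρ (fun _ => [a]) :=
  ⟨_, PB.const 1, fun _ => Cmd.Spec.out a⟩

theorem PS.outs {ρ : ι → R → ℕ} (l : List A) :
    PS len inp (Cmd.outs l : Cmd A R) ρ ρ (fun _ => l) :=
  ⟨_, PB.const (l.length + 1), fun _ => Cmd.Spec.outs l⟩

theorem PS.inc {ρ : ι → R → ℕ} (r : R) :
    PS len inp (Cmd.inc r : Cmd A R) ρ (fun j => update (ρ j) r (ρ j r + 1)) (fun _ => []) :=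
  ⟨_, PB.const 1, fun _ => Cmd.Spec.inc r⟩

theorem PS.clr {ρ : ι → R → ℕ} (r : R) (h : PB len fun j => ρ j r) :
    PS len inp (Cmd.clr r : Cmd A R) ρ (fun j => update (ρ j) r 0) (fun _ => []) :=
  ⟨_, h.add (PB.const 1), fun _ => Cmd.Spec.clr r⟩

theorem PS.seq {c d : Cmd A R} {ρ₀ ρ₁ ρ₂ : ι → R → ℕ} {w₁ w₂ : ι → List A}
    (h₁ : PS len inp c ρ₀ ρ₁ w₁) (h₂ : PS len inp d ρ₁ ρ₂ w₂) :
    PS len inp (Cmd.seq c d) ρ₀ ρ₂ (fun j => w₁ j ++ w₂ j) := by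
  obtain ⟨t₁, b₁, s₁⟩ := h₁
  obtain ⟨t₂, b₂, s₂⟩ := h₂
  exact ⟨_, b₁.add b₂, fun j => (s₁ j).seq (s₂ j)⟩

theorem PS.congr {c : Cmd A R} {ρ₀ ρ₁ ρ₀' ρ₁' : ι → R → ℕ} {w w' : ι → List A}
    (h : PS len inp c ρ₀ ρ₁ w) (h₀ : ∀ j, ρ₀' j = ρ₀ j) (h₁ : ∀ j, ρ₁' j = ρ₁ j)
    (hw : ∀ j, w' j = w j) : PS len inp c ρ₀' ρ₁' w' := by
  obtain ⟨t, b, s⟩ := h
  refine ⟨t, b, fun j => ?_⟩
  rw [h₀, h₁, hw]
  exact s j

/-- A loop over a counter. -/
theorem PS.for {r : R} {f : A → Cmd A R} {σ : ι → ℕ → R → ℕ} {w : ι → ℕ → List A} {N : ι → ℕ}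
    (hN : ∀ j, σ j 0 r = N j) (hb : PB len N)
    (h : PS (fun p : Σ j, Fin (N j) => len p.1) (fun p => inp p.1) (f default)
      (fun p => σ p.1 p.2) (fun p => σ p.1 (p.2 + 1)) (fun p => w p.1 p.2)) :
    PS len inp (Cmd.each (some r) f) (fun j => σ j 0) (fun j => σ j (N j))
      (fun j => (List.range (N j)).flatMap (w j)) := by
  obtain ⟨t, ⟨B, hB, ht⟩, s⟩ := h
  refine ⟨fun j => N j * (B (len j) + 1) + (N j + 2), ?_, fun j => ?_⟩
  · have hB' : PB len fun j => B (len j) := ⟨B, hB, fun _ => le_rfl⟩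
    exact (hb.mul (hB'.add (PB.const 1))).add (hb.add (PB.const 2))
  · refine Cmd.Spec.for (hN j) ?_
    intro i hi
    exact (s ⟨j, ⟨i, hi⟩⟩).mono (ht _)

/-- A sequence of programs that do not change the counters. -/
theorem PS.seqs {X : Type} {ρ : ι → R → ℕ} (c : X → Cmd A R) (w : ι → X → List A) :
    ∀ l : List X, (∀ x ∈ l, PS len inp (c x) ρ ρ fun j => w j x) →
    PS len inp (Cmd.seqs (l.map c)) ρ ρ (fun j => l.flatMap (w j)) := by
  intro l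
  induction l with
  | nil => intro _; exact PS.skip
  | cons x l ih =>
    intro h
    rw [List.map_cons, Cmd.seqs_cons]
    exact (PS.seq (h x (by simp)) (ih fun y hy => h y (by simp [hy]))).congr (fun _ => rfl)
      (fun _ => rfl) (fun j => List.flatMap_cons)

end Pool.Agent.Lib.CookLevin
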