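import Pool.Agent.Lib.CookLevin.Tableau

/-!
# The formula of a computation is satisfiable if and only if a certificate is accepted
-/

namespace Pool.Agent.Lib.CookLevin

open Pool.Agent.Lib.MP_c85d9c_lc

namespace SM

variable {M : SM}

/-- The value of a template of a literal. -/
def Tv (α : ℕ → Bool) (P P' i : ℕ) (τ : M.TL) : Prop :=
  At α (if τ.nxt then P' else P) ((if τ.useI then i else 0) + if τ.ext then 1 else 0) τ.c

theorem lit_iff {α : ℕ → Bool} {P P' i : ℕ} {τ : M.TL} :
    α (TL.lit P P' i τ).2.2 = τ.sign ↔ (Tv α P P' i τ ↔ τ.sign = true) := by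
  unfold Tv At TL.lit
  rw [add_assoc]
  cases τ.sign <;> simp

theorem pre_iff {α : ℕ → Bool} {P P' i : ℕ} {q : M.Q} {g : M.K → Option M.G}
    {rest : List M.TL} :
    (∃ τ ∈ M.pre q g ++ rest, α (TL.lit P P' i τ).2.2 = τ.sign) ↔
      (At α P 0 (Sum.inl q) → (∀ k, At α P 0 (Sum.inr (k, g k))) →
        ∃ τ ∈ rest, α (TL.lit P P' i τ).2.2 = τ.sign) := by
  constructor
  · rintro ⟨τ, hτ, h⟩ h1 h2
    rcases List.mem_append.1 hτ with hτ | hτ
    · exfalso
      unfold pre at hτ
      rcases List.mem_cons.1 hτ with rfl | hτ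
      · rw [lit_iff] at h
        simp only [Bool.false_eq_true, iff_false] at h
        exact h h1
      · obtain ⟨k, _, rfl⟩ := List.mem_map.1 hτ
        rw [lit_iff] at h
        simp only [Bool.false_eq_true, iff_false] at h
        exact h (h2 k)
    · exact ⟨τ, hτ, h⟩
  · intro h
    by_cases h1 : At α P 0 (Sum.inl q)
    · by_cases h2 : ∀ k, At α P 0 (Sum.inr (k, g k))
      · obtain ⟨τ, hτ, h'⟩ := h h1 h2
        exact ⟨τ, List.mem_append_right _ hτ, h'⟩
      · push Not at h2
        obtain ⟨k, hk⟩ := h2
        refine ⟨⟨false, false, false, false, Sum.inr (k, g k)⟩, List.mem_append_left _ ?_, ?_⟩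
        · exact List.mem_cons_of_mem _ (List.mem_map.2 ⟨k, mem_LL k, rfl⟩)
        · rw [lit_iff]
          simp only [Bool.false_eq_true, iff_false]
          exact hk
    · refine ⟨⟨false, false, false, false, Sum.inl q⟩, List.mem_append_left _ ?_, ?_⟩
      · exact List.mem_cons_self
      · rw [lit_iff]
        simp only [Bool.false_eq_true, iff_false]
        exact h1

theorem single_iff {α : ℕ → Bool} {P P' i : ℕ} {τ : M.TL} :
    FH α P P' i [[τ]] ↔ (Tv α P P' i τ ↔ τ.sign = true) := by
  unfold FH
  rw [← lit_iff]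
  simp

theorem stepA_iff {α : ℕ → Bool} {P P' : ℕ} : FH α P P' 0 M.stepA ↔
    ∀ q g, At α P 0 (Sum.inl q) → (∀ k, At α P 0 (Sum.inr (k, g k))) →
      At α P' 0 (Sum.inl (M.δ q g)) ∧
      ∀ k s, M.act q g k = .push s → At α P' 0 (Sum.inr (k, some s)) := by
  unfold FH stepA
  simp only [List.mem_flatMap, List.mem_cons]
  constructor
  · intro h q g h1 h2
    constructor
    · obtain ⟨τ, hτ, h3⟩ := pre_iff.1 (h _ ⟨(q, g), mem_LL _, Or.inl rfl⟩) h1 h2
      rw [List.mem_singleton] at hτ
      subst hτ
      rw [lit_iff] at h3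
      exact h3.2 rfl
    · intro k s hs
      obtain ⟨τ, hτ, h3⟩ := pre_iff.1 (h (M.pre q g ++ [⟨true, true, false, false,
        Sum.inr (k, some s)⟩]) ⟨(q, g), mem_LL _, Or.inr ⟨k, mem_LL k, by
          rw [hs]; unfold pushT; exact List.mem_singleton.2 rfl⟩⟩) h1 h2
      rw [List.mem_singleton] at hτ
      subst hτ
      rw [lit_iff] at h3
      exact h3.2 rfl
  · rintro h t ⟨⟨q, g⟩, _, rfl | ⟨k, _, ht⟩⟩
    · refine pre_iff.2 fun h1 h2 => ⟨_, List.mem_singleton.2 rfl, ?_⟩
      rw [lit_iff]
      exact ⟨fun _ => rfl, fun _ => (h q g h1 h2).1⟩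
    · unfold pushT at ht
      split at ht
      · next s hs =>
        rw [List.mem_singleton] at ht
        subst ht
        refine pre_iff.2 fun h1 h2 => ⟨_, List.mem_singleton.2 rfl, ?_⟩
        rw [lit_iff]
        exact ⟨fun _ => rfl, fun _ => (h q g h1 h2).2 k s hs⟩
      · simp at ht

/-- What the clauses about cells say. -/
def Mv (α : ℕ → Bool) (P P' i : ℕ) (k : M.K) (s : Option M.G) : Act M.G → Prop
  | .keep => At α P i (Sum.inr (k, s)) → At α P' i (Sum.inr (k, s))
  | .pop => At α P (i + 1) (Sum.inr (k, s)) → At α P' i (Sum.inr (k, s))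
  | .push _ => At α P i (Sum.inr (k, s)) → At α P' (i + 1) (Sum.inr (k, s))

theorem moveT_iff {α : ℕ → Bool} {P P' i : ℕ} {k : M.K} {s : Option M.G} {a : Act M.G} :
    (∃ τ ∈ M.moveT k s a, α (TL.lit P P' i τ).2.2 = τ.sign) ↔ Mv α P P' i k s a := by
  cases a with
  | keep =>
    simp only [moveT, Mv, List.mem_cons, List.not_mem_nil, or_false, exists_eq_or_imp,
      exists_eq_left, lit_iff, Tv]
    simp only [Bool.false_eq_true, iff_false, if_true, if_false, add_zero, iff_true]
    rw [← imp_iff_not_or]
  | pop =>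
    simp only [moveT, Mv, List.mem_cons, List.not_mem_nil, or_false, exists_eq_or_imp,
      exists_eq_left, lit_iff, Tv]
    simp only [Bool.false_eq_true, iff_false, if_true, if_false, add_zero, iff_true]
    rw [← imp_iff_not_or]
  | push s' =>
    simp only [moveT, Mv, List.mem_cons, List.not_mem_nil, or_false, exists_eq_or_imp,
      exists_eq_left, lit_iff, Tv]
    simp only [Bool.false_eq_true, iff_false, if_true, if_false, add_zero, iff_true]
    rw [← imp_iff_not_or]

theorem stepB_iff {α : ℕ → Bool} {P P' i : ℕ} : FH α P P' i M.stepB ↔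
    ∀ q g, At α P 0 (Sum.inl q) → (∀ k, At α P 0 (Sum.inr (k, g k))) →
      ∀ k s, Mv α P P' i k s (M.act q g k) := by
  unfold FH stepB
  constructor
  · intro h q g h1 h2 k s
    exact moveT_iff.1 (pre_iff.1 (h _ (List.mem_map.2 ⟨((q, g), (k, s)), mem_LL _, rfl⟩)) h1 h2)
  · intro h t ht
    obtain ⟨⟨⟨q, g⟩, ⟨k, s⟩⟩, _, rfl⟩ := List.mem_map.1 ht
    exact pre_iff.2 fun h1 h2 => moveT_iff.2 (h q g h1 h2 k s)

theorem initC_iff {α : ℕ → Bool} {P' i : ℕ} {a b : M.G} : FH α 0 P' i (M.initC a b) ↔
    (At α 0 i (Sum.inr (M.k₀, some a)) ∨ At α 0 i (Sum.inr (M.k₀, some b)) ∨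
      At α 0 i (Sum.inr (M.k₀, none))) ∧
    (At α 0 i (Sum.inr (M.k₀, none)) → At α 0 (i + 1) (Sum.inr (M.k₀, none))) := by
  unfold FH initC
  simp only [List.mem_cons, List.not_mem_nil, or_false, forall_eq_or_imp, forall_eq,
    exists_eq_or_imp, exists_eq_left, lit_iff, Tv]
  simp only [Bool.false_eq_true, iff_false, if_true, if_false, add_zero, iff_true]
  rw [← imp_iff_not_or]

theorem initO_iff {α : ℕ → Bool} {P' i : ℕ} : FH α 0 P' i M.initO ↔
    ∀ k, k ≠ M.k₀ → At α 0 i (Sum.inr (k, none)) := by
  classical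
  unfold FH initO
  constructor
  · intro h k hk
    obtain ⟨τ, hτ, h'⟩ := h [⟨true, false, true, false, Sum.inr (k, none)⟩]
      (List.mem_map.2 ⟨k, List.mem_filter.2 ⟨mem_LL k, by simpa using hk⟩, rfl⟩)
    rw [List.mem_singleton] at hτ
    subst hτ
    rw [lit_iff] at h'
    exact h'.2 rfl
  · intro h t ht
    obtain ⟨k, hk, rfl⟩ := List.mem_map.1 ht
    have hk' : k ≠ M.k₀ := by simpa using (List.mem_filter.1 hk).2
    refine ⟨_, List.mem_singleton.2 rfl, ?_⟩
    rw [lit_iff]
    exact ⟨fun _ => rfl, fun _ => h k hk'⟩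

/-- The whole formula in words. -/
theorem form_iff {α : ℕ → Bool} {x : List M.G} {m T : ℕ} {a b : M.G} {k₁ : M.K} {z : M.G}
    {R : ℕ} (hR : R = x.length + m + T + 1) : Hl α (form x m T a b k₁ z) ↔
    At α 0 0 (Sum.inl M.q₀) ∧
    (∀ j c, x[j]? = some c → At α 0 j (Sum.inr (M.k₀, some c))) ∧
    (∀ j < m, (At α 0 (x.length + j) (Sum.inr (M.k₀, some a)) ∨
        At α 0 (x.length + j) (Sum.inr (M.k₀, some b)) ∨
        At α 0 (x.length + j) (Sum.inr (M.k₀, none))) ∧
      (At α 0 (x.length + j) (Sum.inr (M.k₀, none)) →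
        At α 0 (x.length + j + 1) (Sum.inr (M.k₀, none)))) ∧
    (∀ j < T + 1, At α 0 (x.length + m + j) (Sum.inr (M.k₀, none))) ∧
    (∀ i < R, ∀ k, k ≠ M.k₀ → At α 0 i (Sum.inr (k, none))) ∧
    (∀ t < T, (∀ q g, At α (t * R) 0 (Sum.inl q) → (∀ k, At α (t * R) 0 (Sum.inr (k, g k))) →
      At α ((t + 1) * R) 0 (Sum.inl (M.δ q g)) ∧
      ∀ k s, M.act q g k = .push s → At α ((t + 1) * R) 0 (Sum.inr (k, some s))) ∧
      ∀ i, i + 1 < R → ∀ q g, At α (t * R) 0 (Sum.inl q) →
        (∀ k, At α (t * R) 0 (Sum.inr (k, g k))) →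
        ∀ k s, Mv α (t * R) ((t + 1) * R) i k s (M.act q g k)) ∧
    ¬ At α (T * R) 0 (Sum.inr (k₁, some z)) := by
  subst hR
  unfold form
  simp only [hl_append, hl_flatMap, hl_fam, List.mem_range, hl_famX]
  refine and_congr ?_ (and_congr ?_ (and_congr ?_ (and_congr ?_ (and_congr ?_
    (and_congr ?_ ?_)))))
  · unfold initQ
    rw [single_iff]
    simp [Tv]
  · refine forall₃_congr fun j c _ => ?_
    unfold initX
    rw [single_iff]
    simp [Tv]
  · exact forall₂_congr fun j _ => initC_iff
  · refine forall₂_congr fun j _ => ?_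
    unfold initN
    rw [single_iff]
    simp [Tv]
  · exact forall₂_congr fun i _ => initO_iff
  · refine forall₂_congr fun t _ => and_congr stepA_iff ?_
    refine forall_congr' fun i => ?_
    rw [stepB_iff]
    constructor
    · intro h hi; exact h (by omega)
    · intro h hi; exact h (by omega)
  · unfold finalT
    rw [single_iff]
    simp [Tv]

theorem getElem?_run {s : Act M.G} {l : List M.G} : ∀ i : ℕ, (s.run l)[i]? = match s with
    | .keep => l[i]?
    | .pop => l[i + 1]?
    | .push a => if i = 0 then some a else l[i - 1]? := by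
  intro i
  cases s with
  | keep => rfl
  | pop => simp [Act.run]
  | push a =>
    rcases i with _ | i
    · simp [Act.run]
    · simp [Act.run]

/-- **A satisfying assignment gives a certificate.** -/
theorem cert_of_hl {α : ℕ → Bool} {x : List M.G} {m T : ℕ} {a b : M.G} {k₁ : M.K} {z : M.G}
    (h : Hl α (form x m T a b k₁ z)) : ∃ w : List Bool, w.length ≤ m ∧
      (((M.conf (x ++ w.map fun c => if c then b else a) T).2 k₁).head? ≠ some z) := by
  classical
  obtain ⟨R, hR⟩ : ∃ R, R = x.length + m + T + 1 := ⟨_, rfl⟩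
  obtain ⟨hQ, hX, hC, hN, hO, hS, hF⟩ := (form_iff hR).1 h
  -- the length of the certificate
  have hex : ∃ j, At α 0 (x.length + j) (Sum.inr (M.k₀, none)) :=
    ⟨m, by have := hN 0 (by omega); simpa using this⟩
  set len := Nat.find hex with hlen
  have h1 : At α 0 (x.length + len) (Sum.inr (M.k₀, none)) := Nat.find_spec hex
  have h2 : ∀ j < len, ¬ At α 0 (x.length + j) (Sum.inr (M.k₀, none)) :=
    fun j hj => Nat.find_min hex hj
  have h3 : len ≤ m := Nat.find_min' hex (by have := hN 0 (by omega); simpa using this)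
  have h4 : ∀ d, x.length + (len + d) < R →
      At α 0 (x.length + (len + d)) (Sum.inr (M.k₀, none)) := by
    intro d
    induction d with
    | zero => intro _; exact h1
    | succ d ih =>
      intro hd
      by_cases hm : len + d < m
      · have := (hC (len + d) hm).2 (ih (by omega))
        exact this
      · have := hN (len + (d + 1) - m) (by omega)
        rwa [show x.length + m + (len + (d + 1) - m) = x.length + (len + (d + 1)) by omega]
          at this
  set w : List Bool := (List.range len).map fun j =>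
    decide (At α 0 (x.length + j) (Sum.inr (M.k₀, some b))) with hw
  have hwl : w.length = len := by rw [hw]; simp
  set y : List M.G := x ++ w.map fun c => if c then b else a with hy
  have hin : ∀ i < R, At α 0 i (Sum.inr (M.k₀, y[i]?)) := by
    intro i hi
    by_cases h5 : i < x.length
    · have h6 : y[i]? = x[i]? := by rw [hy, List.getElem?_append_left h5]
      rw [h6, List.getElem?_eq_getElem h5]
      exact hX i _ (List.getElem?_eq_getElem h5)
    · obtain ⟨j, rfl⟩ := Nat.exists_eq_add_of_le (not_lt.1 h5)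
      have h6 : y[x.length + j]? = (w.map fun c => if c then b else a)[j]? := by
        rw [hy, List.getElem?_append_right (by omega)]
        congr 1
        omega
      rw [h6]
      by_cases h7 : j < len
      · have h8 : w[j]? = some (decide (At α 0 (x.length + j) (Sum.inr (M.k₀, some b)))) := by
          rw [hw, List.getElem?_map, List.getElem?_range h7]
          rfl
        rw [List.getElem?_map, h8, Option.map_some]
        by_cases h9 : At α 0 (x.length + j) (Sum.inr (M.k₀, some b))
        · simp [h9]
        · rcases (hC j (by omega)).1 with h10 | h10 | h10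
          · simpa [h9] using h10
          · exact absurd h10 h9
          · exact absurd h10 (h2 j h7)
      · have h8 : (w.map fun c => if c then b else a)[j]? = none := by
          rw [List.getElem?_eq_none_iff, List.length_map, hwl]
          omega
        rw [h8]
        have := h4 (j - len) (by omega)
        rwa [show len + (j - len) = j by omega] at this
  have key : ∀ t ≤ T, At α (t * R) 0 (Sum.inl (M.conf y t).1) ∧
      ∀ k i, i + t < R → At α (t * R) i (Sum.inr (k, ((M.conf y t).2 k)[i]?)) := by
    intro t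
    induction t with
    | zero =>
      intro _
      refine ⟨by rw [Nat.zero_mul]; exact hQ, ?_⟩
      intro k i hi
      rw [Nat.zero_mul]
      by_cases hk : k = M.k₀
      · subst hk
        have e : (M.conf y 0).2 M.k₀ = y := if_pos rfl
        rw [e]
        exact hin i (by omega)
      · have e : (M.conf y 0).2 k = [] := if_neg hk
        rw [e]
        exact hO i (by omega) k hk
    | succ t ih =>
      intro ht
      obtain ⟨ihq, ihk⟩ := ih (by omega)
      obtain ⟨s1, s2⟩ := hS t (by omega)
      set c := M.conf y t with hc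
      have hg : ∀ k, At α (t * R) 0 (Sum.inr (k, (c.2 k).head?)) := by
        intro k
        rw [List.head?_eq_getElem?]
        exact ihk k 0 (by omega)
      have e : M.conf y (t + 1) = M.step c := rfl
      rw [e]
      obtain ⟨s3, s4⟩ := s1 c.1 (fun k => (c.2 k).head?) ihq hg
      refine ⟨s3, ?_⟩
      intro k i hi
      show At α ((t + 1) * R) i (Sum.inr (k, ((M.act c.1 (fun k => (c.2 k).head?) k).run
        (c.2 k))[i]?))
      rw [getElem?_run]
      cases hact : M.act c.1 (fun k => (c.2 k).head?) k with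
      | keep =>
        have := s2 i (by omega) c.1 _ ihq hg k (c.2 k)[i]?
        rw [hact] at this
        exact this (ihk k i (by omega))
      | pop =>
        have := s2 i (by omega) c.1 _ ihq hg k (c.2 k)[i + 1]?
        rw [hact] at this
        exact this (ihk k (i + 1) (by omega))
      | push s' =>
        rcases i with _ | i
        · simp only [if_true]
          exact s4 k s' hact
        · simp only [Nat.add_one_ne_zero, if_false, Nat.add_sub_cancel]
          have := s2 i (by omega) c.1 _ ihq hg k (c.2 k)[i]?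
          rw [hact] at this
          exact this (ihk k i (by omega))
  refine ⟨w, by omega, ?_⟩
  intro hz
  have h5 := (key T le_rfl).2 k₁ 0 (by omega)
  rw [← List.head?_eq_getElem?, hz] at h5
  exact hF h5

/-- What a cell says about the configuration. -/
def Says (y : List M.G) (t i : ℕ) : M.Cell → Prop
  | Sum.inl q => (M.conf y t).1 = q
  | Sum.inr (k, s) => ((M.conf y t).2 k)[i]? = s

open Classical in
/-- The assignment of a computation. -/
noncomputable def asg (y : List M.G) (R : ℕ) (v : ℕ) : Bool :=
  if h : v % M.nC < M.nC then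
    decide (Says y (v / M.nC / R) (v / M.nC % R) (M.eC.symm ⟨v % M.nC, h⟩))
  else false

theorem at_asg {y : List M.G} {R t i : ℕ} (hi : i < R) (c : M.Cell) :
    At (asg y R) (t * R) i c ↔ Says y t i c := by
  have hc := M.num_lt c
  have hpos : 0 < M.nC := by omega
  have e1 : ((t * R + i) * M.nC + M.num c) % M.nC = M.num c := by
    rw [Nat.mul_comm, Nat.mul_add_mod, Nat.mod_eq_of_lt hc]
  have e2 : ((t * R + i) * M.nC + M.num c) / M.nC = t * R + i := by
    rw [Nat.mul_comm, Nat.mul_add_div hpos, Nat.div_eq_of_lt hc, Nat.add_zero]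
  have e3 : (t * R + i) / R = t := by
    rw [Nat.mul_comm, Nat.mul_add_div (by omega), Nat.div_eq_of_lt hi, Nat.add_zero]
  have e4 : (t * R + i) % R = i := by
    rw [Nat.mul_comm, Nat.mul_add_mod, Nat.mod_eq_of_lt hi]
  unfold At asg
  rw [dif_pos (by rw [e1]; exact hc), e2, e3, e4]
  have e5 : M.eC.symm ⟨((t * R + i) * M.nC + M.num c) % M.nC, by rw [e1]; exact hc⟩ = c := by
    rw [Equiv.symm_apply_eq]
    exact Fin.ext e1
  rw [e5]
  simp

/-- **A certificate gives a satisfying assignment.** -/
theorem hl_of_cert {x : List M.G} {m T : ℕ} {a b : M.G} {k₁ : M.K} {z : M.G} {w : List Bool}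
    (hw : w.length ≤ m)
    (hz : ((M.conf (x ++ w.map fun c => if c then b else a) T).2 k₁).head? ≠ some z) :
    ∃ α, Hl α (form x m T a b k₁ z) := by
  classical
  obtain ⟨R, hR⟩ : ∃ R, R = x.length + m + T + 1 := ⟨_, rfl⟩
  set y : List M.G := x ++ w.map fun c => if c then b else a with hy
  refine ⟨asg y R, (form_iff hR).2 ?_⟩
  have at0 : ∀ i < R, ∀ c : M.Cell, At (asg y R) 0 i c ↔ Says y 0 i c := by
    intro i hi c
    have := at_asg (y := y) (t := 0) hi c
    rwa [Nat.zero_mul] at this
  have hyl : y.length = x.length + w.length := by rw [hy]; simp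
  have hk0 : ∀ i s, Says y 0 i (Sum.inr (M.k₀, s)) ↔ y[i]? = s := by
    intro i s
    have e : (M.conf y 0).2 M.k₀ = y := if_pos rfl
    show ((M.conf y 0).2 M.k₀)[i]? = s ↔ _
    rw [e]
  have hpre : ∀ t q (g : M.K → Option M.G), At (asg y R) (t * R) 0 (Sum.inl q) →
      (∀ k, At (asg y R) (t * R) 0 (Sum.inr (k, g k))) →
      (M.conf y t).1 = q ∧ (fun k => ((M.conf y t).2 k).head?) = g := by
    intro t q g h1 h2
    refine ⟨(at_asg (by omega) _).1 h1, funext fun k => ?_⟩
    have := (at_asg (by omega) _).1 (h2 k)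
    rw [List.head?_eq_getElem?]
    exact this
  refine ⟨?_, ?_, ?_, ?_, ?_, ?_, ?_⟩
  · rw [at0 0 (by omega)]
    rfl
  · intro j c hj
    have hjl : j < x.length := by
      by_contra hcon
      rw [List.getElem?_eq_none_iff.2 (not_lt.1 hcon)] at hj
      cases hj
    rw [at0 j (by omega), hk0, hy, List.getElem?_append_left hjl]
    exact hj
  · intro j hj
    rw [at0 _ (by omega), at0 _ (by omega), at0 _ (by omega), at0 _ (by omega), hk0, hk0, hk0,
      hk0]
    have e : y[x.length + j]? = (w[j]?).map fun c => if c then b else a := by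
      rw [hy, List.getElem?_append_right (by omega), List.getElem?_map]
      congr 2
      omega
    constructor
    · rw [e]
      cases hwj : w[j]? with
      | none => exact Or.inr (Or.inr rfl)
      | some c =>
        cases c
        · exact Or.inl rfl
        · exact Or.inr (Or.inl rfl)
    · intro h
      rw [List.getElem?_eq_none_iff] at h ⊢
      omega
  · intro j hj
    rw [at0 _ (by omega), hk0, List.getElem?_eq_none_iff]
    omega
  · intro i hi k hk
    rw [at0 _ hi]
    have e : (M.conf y 0).2 k = [] := if_neg hk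
    show ((M.conf y 0).2 k)[i]? = none
    rw [e]
    rfl
  · intro t ht
    constructor
    · intro q g h1 h2
      obtain ⟨h3, h4⟩ := hpre t q g h1 h2
      rw [at_asg (by omega)]
      constructor
      · show (M.conf y (t + 1)).1 = _
        rw [← h3, ← h4]
        rfl
      · intro k s hs
        rw [at_asg (by omega)]
        show ((M.act (M.conf y t).1 (fun k => ((M.conf y t).2 k).head?) k).run
          ((M.conf y t).2 k))[0]? = some s
        rw [h3, h4, hs]
        rfl
    · intro i hi q g h1 h2 k s
      obtain ⟨h3, h4⟩ := hpre t q g h1 h2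
      have h5 : ∀ i : ℕ, ((M.conf y (t + 1)).2 k)[i]? =
          ((M.act q g k).run ((M.conf y t).2 k))[i]? := by
        intro i
        rw [← h3, ← h4]
        rfl
      cases hact : M.act q g k with
      | keep =>
        show At _ _ _ _ → At _ _ _ _
        rw [at_asg (by omega), at_asg (by omega)]
        intro h6
        show ((M.conf y (t + 1)).2 k)[i]? = s
        rw [h5, getElem?_run, hact]
        exact h6
      | pop =>
        show At _ _ _ _ → At _ _ _ _
        rw [at_asg (by omega), at_asg (by omega)]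
        intro h6
        show ((M.conf y (t + 1)).2 k)[i]? = s
        rw [h5, getElem?_run, hact]
        exact h6
      | push s' =>
        show At _ _ _ _ → At _ _ _ _
        rw [at_asg (by omega), at_asg (by omega)]
        intro h6
        show ((M.conf y (t + 1)).2 k)[i + 1]? = s
        rw [h5, getElem?_run, hact]
        exact h6
  · rw [at_asg (by omega)]
    intro h
    apply hz
    rw [List.head?_eq_getElem?]
    exact h

/-- **The formula is satisfiable if and only if some certificate is accepted.** -/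
theorem form_satisfiable {x : List M.G} {m T : ℕ} {a b : M.G} {k₁ : M.K} {z : M.G} :
    (form x m T a b k₁ z).Satisfiable ↔ ∃ w : List Bool, w.length ≤ m ∧
      (((M.conf (x ++ w.map fun c => if c then b else a) T).2 k₁).head? ≠ some z) := by
  rw [satisfiable_iff_hl existential_form]
  constructor
  · rintro ⟨α, h⟩
    exact cert_of_hl h
  · rintro ⟨w, hw, hz⟩
    exact hl_of_cert hw hz

end SM

end Pool.Agent.Lib.CookLevin
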