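import Pool.Agent.Lib.CookLevin.PSpec
import Pool.Agent.Lib.CookLevin.Tableau2

/-!
# A program that prints the formula of a computation
-/

set_option linter.unusedSectionVars false

namespace Pool.Agent.Lib.CookLevin

open Function Pool.Agent.Lib.MP_c85d9c_lc

/-- The counters. -/
inductive Rh
  | X | M | T | W | P | U | I | Y | Z
  deriving DecidableEq

instance : Fintype Rh :=
  ⟨{Rh.X, Rh.M, Rh.T, Rh.W, Rh.P, Rh.U, Rh.I, Rh.Y, Rh.Z}, fun x => by cases x <;> simp⟩

/-- The values of the counters. -/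
def rh (x m t w p u i y z : ℕ) : Rh → ℕ
  | Rh.X => x
  | Rh.M => m
  | Rh.T => t
  | Rh.W => w
  | Rh.P => p
  | Rh.U => u
  | Rh.I => i
  | Rh.Y => y
  | Rh.Z => z

section

variable {x m t w p u i y z a : ℕ}

theorem rh_X : update (rh x m t w p u i y z) Rh.X a = rh a m t w p u i y z := by
  funext r; cases r <;> rfl
theorem rh_M : update (rh x m t w p u i y z) Rh.M a = rh x a t w p u i y z := by
  funext r; cases r <;> rfl
theorem rh_T : update (rh x m t w p u i y z) Rh.T a = rh x m a w p u i y z := by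
  funext r; cases r <;> rfl
theorem rh_W : update (rh x m t w p u i y z) Rh.W a = rh x m t a p u i y z := by
  funext r; cases r <;> rfl
theorem rh_P : update (rh x m t w p u i y z) Rh.P a = rh x m t w a u i y z := by
  funext r; cases r <;> rfl
theorem rh_U : update (rh x m t w p u i y z) Rh.U a = rh x m t w p a i y z := by
  funext r; cases r <;> rfl
theorem rh_I : update (rh x m t w p u i y z) Rh.I a = rh x m t w p u a y z := by
  funext r; cases r <;> rfl
theorem rh_Y : update (rh x m t w p u i y z) Rh.Y a = rh x m t w p u i a z := by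
  funext r; cases r <;> rfl
theorem rh_Z : update (rh x m t w p u i y z) Rh.Z a = rh x m t w p u i y a := by
  funext r; cases r <;> rfl

end

variable {Γ : Type} {ι : Type} {len : ι → ℕ} {inp : ι → List (Γ ⊕ Sym)}

/-- The programs. -/
abbrev PrH (Γ : Type) := Cmd (Γ ⊕ Sym) Rh

/-- All the counters are polynomially bounded. -/
def Bd (len : ι → ℕ) (ρ : ι → Rh → ℕ) : Prop := ∀ r, PB len fun j => ρ j r

/-- Print `a` as often as the value of the counter says, `n` times. -/
def ticks (n : ℕ) (r : Rh) : PrH Γ :=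
  Cmd.each (some r) fun _ => Cmd.outs (List.replicate n (Sum.inr Sym.tick))

theorem flatMap_const_replicate {X Y : Type} (l : List X) (n : ℕ) (a : Y) :
    (l.flatMap fun _ => List.replicate n a) = List.replicate (l.length * n) a := by
  induction l with
  | nil => simp
  | cons b l ih =>
    rw [List.flatMap_cons, ih, ← List.replicate_add, List.length_cons]
    congr 1
    ring

theorem ps_ticks {ρ : ι → Rh → ℕ} (hρ : Bd len ρ) (n : ℕ) (r : Rh) :
    PS len inp (ticks n r : PrH Γ) ρ ρ
      (fun j => List.replicate (ρ j r * n) (Sum.inr Sym.tick)) := by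
  have h := PS.for (len := len) (inp := inp) (r := r) (σ := fun j _ => ρ j)
    (f := fun _ => Cmd.outs (List.replicate n (Sum.inr Sym.tick)))
    (w := fun _ _ => List.replicate n (Sum.inr Sym.tick)) (N := fun j => ρ j r) (fun _ => rfl)
    (hρ r) (PS.outs _)
  refine h.congr (fun _ => rfl) (fun _ => rfl) (fun j => ?_)
  rw [flatMap_const_replicate, List.length_range]

variable {M : SM}

open SM

/-- Print the encoding of a literal. -/
noncomputable def litP (τ : M.TL) : PrH Γ :=
  Cmd.seq (ticks M.nC (if τ.nxt then Rh.U else Rh.P))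
    (Cmd.seq (if τ.useI then ticks M.nC Rh.I else Cmd.skip)
      (Cmd.outs (List.replicate ((if τ.ext then 1 else 0) * M.nC + M.num τ.c)
        (Sum.inr Sym.tick) ++ [Sum.inr (Sym.lit false τ.sign)])))

theorem ps_litP {ρ : ι → Rh → ℕ} (hρ : Bd len ρ) (τ : M.TL) :
    PS len inp (litP τ : PrH Γ) ρ ρ
      (fun j => (encL (TL.lit (ρ j Rh.P) (ρ j Rh.U) (ρ j Rh.I) τ)).map Sum.inr) := by
  obtain ⟨sg, nx, ui, ex, c⟩ := τ
  unfold litP
  have h1 := ps_ticks (inp := inp) hρ M.nC (if nx then Rh.U else Rh.P)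
  have h2 : PS len inp (if ui then ticks M.nC Rh.I else Cmd.skip : PrH Γ) ρ ρ
      (fun j => List.replicate ((if ui then ρ j Rh.I else 0) * M.nC) (Sum.inr Sym.tick)) := by
    cases ui
    · exact PS.skip.congr (fun _ => rfl) (fun _ => rfl) (fun j => by simp)
    · exact ps_ticks hρ M.nC Rh.I
  have h3 := PS.outs (len := len) (inp := inp) (ρ := ρ)
    (List.replicate ((if ex then 1 else 0) * M.nC + M.num c)
        (Sum.inr Sym.tick) ++ [Sum.inr (Sym.lit false sg)] : List (Γ ⊕ Sym))
  refine (h1.seq (h2.seq h3)).congr (fun _ => rfl) (fun _ => rfl) (fun j => ?_)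
  have e : ρ j (if nx then Rh.U else Rh.P) = if nx then ρ j Rh.U else ρ j Rh.P := by
    cases nx <;> rfl
  unfold encL TL.lit
  simp only [e, List.map_append, List.map_replicate, List.map_cons, List.map_nil]
  rw [← List.append_assoc, ← List.append_assoc, ← List.replicate_add, ← List.replicate_add]
  congr 2
  ring

/-- Print the encoding of a clause. -/
noncomputable def clauseP (t : List M.TL) : PrH Γ :=
  Cmd.seq (Cmd.seqs (t.map litP)) (Cmd.out (Sum.inr Sym.stop))

theorem ps_clauseP {ρ : ι → Rh → ℕ} (hρ : Bd len ρ) (t : List M.TL) :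
    PS len inp (clauseP t : PrH Γ) ρ ρ
      (fun j => (encC (t.map (TL.lit (ρ j Rh.P) (ρ j Rh.U) (ρ j Rh.I)))).map Sum.inr) := by
  have h1 := PS.seqs (len := len) (inp := inp) (ρ := ρ) (litP (Γ := Γ))
    (fun j τ => (encL (TL.lit (ρ j Rh.P) (ρ j Rh.U) (ρ j Rh.I) τ)).map Sum.inr) t
    (fun τ _ => ps_litP hρ τ)
  refine (h1.seq (PS.out _)).congr (fun _ => rfl) (fun _ => rfl) (fun j => ?_)
  unfold encC
  rw [List.map_append, List.flatMap_map, List.map_flatMap]
  rfl

/-- The encoding of a formula over the large alphabet. -/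
def encI (Γ : Type) (φ : Formula) : List (Γ ⊕ Sym) := φ.encode.map Sum.inr

theorem encI_append (φ ψ : Formula) : encI Γ (φ ++ ψ) = encI Γ φ ++ encI Γ ψ := by
  unfold encI Formula.encode
  rw [List.flatMap_append, List.map_append]

theorem encI_flatMap {X : Type} (l : List X) (f : X → Formula) :
    encI Γ (l.flatMap f) = l.flatMap fun x => encI Γ (f x) := by
  unfold encI Formula.encode
  rw [List.flatMap_assoc, List.map_flatMap]

/-- Print the encodings of a family of clauses. -/
noncomputable def famP (F : List (List M.TL)) : PrH Γ := Cmd.seqs (F.map clauseP)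

theorem ps_famP {ρ : ι → Rh → ℕ} (hρ : Bd len ρ) (F : List (List M.TL)) :
    PS len inp (famP F : PrH Γ) ρ ρ
      (fun j => encI Γ (fam (ρ j Rh.P) (ρ j Rh.U) (ρ j Rh.I) F)) := by
  have h1 := PS.seqs (len := len) (inp := inp) (ρ := ρ) (clauseP (Γ := Γ))
    (fun j t => (encC (t.map (TL.lit (ρ j Rh.P) (ρ j Rh.U) (ρ j Rh.I)))).map Sum.inr) F
    (fun t _ => ps_clauseP hρ t)
  refine h1.congr (fun _ => rfl) (fun _ => rfl) (fun j => ?_)
  unfold encI fam Formula.encode
  rw [List.flatMap_map, List.map_flatMap]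

theorem bd_rh {x m t w p u i y z : ι → ℕ} (hx : PB len x) (hm : PB len m) (ht : PB len t)
    (hw : PB len w) (hp : PB len p) (hu : PB len u) (hi : PB len i) (hy : PB len y)
    (hz : PB len z) :
    Bd len fun j => rh (x j) (m j) (t j) (w j) (p j) (u j) (i j) (y j) (z j) := by
  intro r; cases r <;> assumption

/-! ### Polynomials -/

/-- Horner's scheme. -/
def hor : List ℕ → ℕ → ℕ
  | [], _ => 0
  | c :: l, x => hor l x * x + c

theorem hor_add (l l' : List ℕ) : ∃ l'', ∀ x, hor l'' x = hor l x + hor l' x := by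
  induction l generalizing l' with
  | nil => exact ⟨l', fun x => by simp [hor]⟩
  | cons c l ih =>
    cases l' with
    | nil => exact ⟨c :: l, fun x => by simp [hor]⟩
    | cons c' l' =>
      obtain ⟨l'', h⟩ := ih l'
      refine ⟨(c + c') :: l'', fun x => ?_⟩
      simp only [hor, h]
      ring

theorem exists_hor (p : Polynomial ℕ) : ∃ l, ∀ x, hor l x = p.eval x := by
  induction p using Polynomial.induction_on with
  | C c => exact ⟨[c], fun x => by simp [hor]⟩
  | add p q hp hq =>
    obtain ⟨l, hl⟩ := hp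
    obtain ⟨l', hl'⟩ := hq
    obtain ⟨l'', h⟩ := hor_add l l'
    exact ⟨l'', fun x => by rw [h, hl, hl', Polynomial.eval_add]⟩
  | monomial n c ih =>
    obtain ⟨l, hl⟩ := ih
    refine ⟨0 :: l, fun x => ?_⟩
    simp only [hor, hl, Polynomial.eval_mul, Polynomial.eval_C, Polynomial.eval_pow,
      Polynomial.eval_X]
    ring

theorem pb_hor (l : List ℕ) {x : ι → ℕ} (hx : PB len x) : PB len fun j => hor l (x j) := by
  induction l with
  | nil => exact PB.const 0
  | cons c l ih => exact (ih.mul hx).add (PB.const c)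

/-- Add `c` to `Y`. -/
def addY (c : ℕ) : PrH Γ := Cmd.seqs ((List.range c).map fun _ => Cmd.inc Rh.Y)

/-- Compute the value of a polynomial at `X` in `Y`. -/
def horP : List ℕ → PrH Γ
  | [] => Cmd.skip
  | c :: l => Cmd.seq (horP l) (Cmd.seq
      (Cmd.each (some Rh.Y) fun _ => Cmd.each (some Rh.X) fun _ => Cmd.inc Rh.Z)
      (Cmd.seq (Cmd.clr Rh.Y) (Cmd.seq (Cmd.each (some Rh.Z) fun _ => Cmd.inc Rh.Y)
        (Cmd.seq (Cmd.clr Rh.Z) (addY c)))))

section

variable {x m t w p u i y z : ι → ℕ}

theorem ps_addY (c : ℕ) : ∀ y : ι → ℕ, PS len inp (addY c : PrH Γ)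
    (fun j => rh (x j) (m j) (t j) (w j) (p j) (u j) (i j) (y j) (z j))
    (fun j => rh (x j) (m j) (t j) (w j) (p j) (u j) (i j) (y j + c) (z j)) (fun _ => []) := by
  have key : ∀ (l : List ℕ) (y : ι → ℕ), PS len inp (Cmd.seqs (l.map fun _ => Cmd.inc Rh.Y) :
      PrH Γ) (fun j => rh (x j) (m j) (t j) (w j) (p j) (u j) (i j) (y j) (z j))
      (fun j => rh (x j) (m j) (t j) (w j) (p j) (u j) (i j) (y j + l.length) (z j))
      (fun _ => []) := by
    intro l
    induction l with
    | nil => intro y; exact PS.skip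
    | cons a l ih =>
      intro y
      rw [List.map_cons, Cmd.seqs_cons]
      refine (PS.seq (PS.inc Rh.Y) ((ih fun j => y j + 1).congr (fun j => ?_) (fun _ => rfl)
        (fun _ => rfl))).congr (fun _ => rfl) (fun j => ?_) (fun _ => rfl)
      · rw [rh_Y]; rfl
      · rw [List.length_cons]; congr 1; ring
  intro y
  refine (key (List.range c) y).congr (fun _ => rfl) (fun j => ?_) (fun _ => rfl)
  rw [List.length_range]

/-- A loop that adds the counter `r` to another counter. -/
theorem ps_addLoop {r : Rh} {f : Γ ⊕ Sym → PrH Γ} {σ : ι → ℕ → Rh → ℕ} {N : ι → ℕ}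
    (hN : ∀ j, σ j 0 r = N j) (hb : PB len N)
    (h : ∀ (j : ι) (i : ℕ), Cmd.Spec (inp j) (f default) (σ j i) (σ j (i + 1)) [] 10) :
    PS len inp (Cmd.each (some r) f) (fun j => σ j 0) (fun j => σ j (N j)) (fun _ => []) := by
  refine (PS.for (w := fun _ _ => []) hN hb ⟨_, PB.const 10, fun p => h p.1 p.2⟩).congr
    (fun _ => rfl) (fun _ => rfl) (fun j => ?_)
  simp

theorem ps_horP (hx : PB len x) (l : List ℕ) : PS len inp (horP l : PrH Γ)
    (fun j => rh (x j) (m j) (t j) (w j) (p j) (u j) (i j) 0 0)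
    (fun j => rh (x j) (m j) (t j) (w j) (p j) (u j) (i j) (hor l (x j)) 0) (fun _ => []) := by
  induction l with
  | nil => exact PS.skip
  | cons c l ih =>
    have hh := pb_hor l hx
    -- the double loop
    have h1 : PS len inp (Cmd.each (some Rh.Y) fun _ => Cmd.each (some Rh.X) fun _ =>
        Cmd.inc Rh.Z : PrH Γ)
        (fun j => rh (x j) (m j) (t j) (w j) (p j) (u j) (i j) (hor l (x j)) 0)
        (fun j => rh (x j) (m j) (t j) (w j) (p j) (u j) (i j) (hor l (x j))
          (hor l (x j) * x j)) (fun _ => []) := by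
      refine (PS.for (r := Rh.Y) (σ := fun j a =>
        rh (x j) (m j) (t j) (w j) (p j) (u j) (i j) (hor l (x j)) (a * x j))
        (w := fun _ _ => []) (N := fun j => hor l (x j)) (fun _ => rfl) hh ?_).congr
        (fun j => by simp) (fun _ => rfl) (fun j => by simp)
      refine (ps_addLoop (r := Rh.X) (σ := fun q b => rh (x q.1) (m q.1) (t q.1) (w q.1) (p q.1)
        (u q.1) (i q.1) (hor l (x q.1)) (q.2 * x q.1 + b)) (N := fun q => x q.1) (fun _ => rfl)
        (hx.comp Sigma.fst) ?_).congr (fun _ => rfl) (fun q => by congr 1; ring)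
        (fun _ => rfl)
      intro q b
      have := Cmd.Spec.inc (inp := inp q.1) (ρ := rh (x q.1) (m q.1) (t q.1) (w q.1) (p q.1)
        (u q.1) (i q.1) (hor l (x q.1)) (q.2 * x q.1 + b)) Rh.Z
      rw [rh_Z] at this
      exact this.mono (by omega)
    have h2 : PS len inp (Cmd.clr Rh.Y : PrH Γ)
        (fun j => rh (x j) (m j) (t j) (w j) (p j) (u j) (i j) (hor l (x j))
          (hor l (x j) * x j))
        (fun j => rh (x j) (m j) (t j) (w j) (p j) (u j) (i j) 0
          (hor l (x j) * x j)) (fun _ => []) :=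
      (PS.clr Rh.Y hh).congr (fun _ => rfl) (fun j => by rw [rh_Y]) (fun _ => rfl)
    have h3 : PS len inp (Cmd.each (some Rh.Z) fun _ => Cmd.inc Rh.Y : PrH Γ)
        (fun j => rh (x j) (m j) (t j) (w j) (p j) (u j) (i j) 0
          (hor l (x j) * x j))
        (fun j => rh (x j) (m j) (t j) (w j) (p j) (u j) (i j) (hor l (x j) * x j)
          (hor l (x j) * x j)) (fun _ => []) := by
      refine (ps_addLoop (r := Rh.Z) (σ := fun j a => rh (x j) (m j) (t j) (w j) (p j)
        (u j) (i j) a (hor l (x j) * x j)) (N := fun j => hor l (x j) * x j) (fun _ => rfl)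
        (hh.mul hx) ?_)
      intro j a
      have := Cmd.Spec.inc (inp := inp j) (ρ := rh (x j) (m j) (t j) (w j) (p j)
        (u j) (i j) a (hor l (x j) * x j)) Rh.Y
      rw [rh_Y] at this
      exact this.mono (by omega)
    have h4 : PS len inp (Cmd.clr Rh.Z : PrH Γ)
        (fun j => rh (x j) (m j) (t j) (w j) (p j) (u j) (i j) (hor l (x j) * x j)
          (hor l (x j) * x j))
        (fun j => rh (x j) (m j) (t j) (w j) (p j) (u j) (i j) (hor l (x j) * x j) 0)
        (fun _ => []) :=
      (PS.clr Rh.Z (hh.mul hx)).congr (fun _ => rfl) (fun j => by rw [rh_Z]) (fun _ => rfl)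
    exact (ih.seq (h1.seq (h2.seq (h3.seq (h4.seq (ps_addY c _)))))).congr (fun _ => rfl)
      (fun _ => rfl) (fun _ => rfl)

end

end Pool.Agent.Lib.CookLevin
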