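import Pool.Agent.Lib.CookLevin.Printer

/-!
# A program that prints the formula of a computation, continued
-/

set_option linter.unusedSectionVars false

namespace Pool.Agent.Lib.CookLevin

open Function Pool.Agent.Lib.MP_c85d9c_lc SM

variable {Γ : Type} [Fintype Γ]

/-- The input of the program. -/
abbrev inpX (x : List Γ) : List (Γ ⊕ Sym) := x.map Sum.inl

/-- The output of a loop over the input. -/
def wl (w : ℕ → Γ → List (Γ ⊕ Sym)) : ℕ → List Γ → List (Γ ⊕ Sym)
  | _, [] => []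
  | i, g :: l => w i g ++ wl w (i + 1) l

/-- A loop over the input. -/
theorem ps_scan {f : Γ ⊕ Sym → PrH Γ} {σ : List Γ → ℕ → Rh → ℕ}
    {w : ℕ → Γ → List (Γ ⊕ Sym)}
    (hf : ∀ g : Γ, PS (fun p : Σ x : List Γ, Fin x.length => p.1.length) (fun p => inpX p.1)
      (f (Sum.inl g)) (fun p => σ p.1 p.2) (fun p => σ p.1 (p.2 + 1)) (fun p => w p.2 g)) :
    PS List.length inpX (Cmd.each none f) (fun x => σ x 0) (fun x => σ x x.length)
      (fun x => wl w 0 x) := by
  choose t ht hs using hf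
  choose B hB ht using ht
  have hpoly : ∀ s : Finset Γ, PolyBdd fun n => ∑ g ∈ s, B g n := by
    classical
    intro s
    induction s using Finset.induction_on with
    | empty => simpa using PolyBdd.const 0
    | insert g s hg ih =>
      simp only [Finset.sum_insert hg]
      exact (hB g).add ih
  let C : ℕ → ℕ := fun n => ∑ g, B g n
  refine ⟨fun x => x.length * (C x.length + 1) + (x.length + 2), ?_, fun x => ?_⟩
  · exact ⟨fun n => n * (C n + 1) + (n + 2),
      (PolyBdd.id.mul ((hpoly Finset.univ).add (PolyBdd.const 1))).add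
        (PolyBdd.id.add (PolyBdd.const 2)), fun x => le_rfl⟩
  · have key : ∀ (l : List Γ) (i : ℕ), i + l.length = x.length →
        Cmd.SpecL (inpX x) f (inpX l) (σ x i) (σ x (i + l.length)) (wl w i l)
          (C x.length) := by
      intro l
      induction l with
      | nil => intro i _; exact Cmd.SpecL.nil
      | cons g l ih =>
        intro i hi
        rw [List.length_cons] at hi
        have h1 := hs g ⟨x, ⟨i, by omega⟩⟩
        have h2 := ih (i + 1) (by omega)
        rw [show i + 1 + l.length = i + (g :: l).length by simp; ring] at h2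
        refine Cmd.SpecL.cons (h1.mono ((ht g _).trans ?_)) h2
        exact Finset.single_le_sum (f := fun g => B g x.length) (fun _ _ => Nat.zero_le _)
          (Finset.mem_univ g)
    have h3 := key x 0 (by simp)
    rw [Nat.zero_add] at h3
    exact Cmd.Spec.each (k := none) (fun o => rfl) (by simp) h3

variable {M : SM} (lm lt : List ℕ) (sym : Γ → M.G) (a b : M.G) (k₁ : M.K) (z : M.G)

/-- The length of the certificate. -/
def cm (x : List Γ) : ℕ := hor lm x.length

/-- The number of steps. -/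
def cT (x : List Γ) : ℕ := hor lt (x.length + cm lm x)

/-- The width of the tableau. -/
def cW (x : List Γ) : ℕ := x.length + cm lm x + cT lm lt x

/-- The first part of the program: compute the bounds. -/
def prA : PrH Γ :=
  Cmd.seq (Cmd.each none fun _ => Cmd.inc Rh.X) (Cmd.seq (horP lm) (Cmd.seq
    (Cmd.each (some Rh.Y) fun _ => Cmd.seq (Cmd.inc Rh.M) (Cmd.inc Rh.X)) (Cmd.seq
    (Cmd.clr Rh.Y) (Cmd.seq (horP lt) (Cmd.seq
    (Cmd.each (some Rh.Y) fun _ => Cmd.seq (Cmd.inc Rh.T) (Cmd.inc Rh.W)) (Cmd.seq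
    (Cmd.clr Rh.Y) (Cmd.each (some Rh.X) fun _ => Cmd.inc Rh.W)))))))

theorem pb_n : PB List.length (fun x : List Γ => x.length) := PB.self

theorem pb_m : PB List.length (cm (Γ := Γ) lm) := pb_hor lm pb_n

theorem pb_T : PB List.length (cT (Γ := Γ) lm lt) := pb_hor lt (pb_n.add (pb_m lm))

theorem pb_W : PB List.length (cW (Γ := Γ) lm lt) := (pb_n.add (pb_m lm)).add (pb_T lm lt)

theorem ps_prA : PS List.length inpX (prA lm lt : PrH Γ) (fun _ => rh 0 0 0 0 0 0 0 0 0)
    (fun x => rh (x.length + cm lm x) (cm lm x) (cT lm lt x) (cW lm lt x) 0 0 0 0 0)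
    (fun _ => []) := by
  have h1 : PS List.length inpX (Cmd.each none fun _ => Cmd.inc Rh.X : PrH Γ)
      (fun _ => rh 0 0 0 0 0 0 0 0 0) (fun x => rh x.length 0 0 0 0 0 0 0 0) (fun _ => []) := by
    refine (ps_scan (f := fun _ => Cmd.inc Rh.X) (σ := fun _ i => rh i 0 0 0 0 0 0 0 0)
      (w := fun _ _ => []) ?_).congr (fun _ => rfl) (fun _ => rfl) (fun x => ?_)
    · intro g
      exact (PS.inc Rh.X).congr (fun _ => rfl) (fun _ => by rw [rh_X]; rfl) (fun _ => rfl)
    · have : ∀ (l : List Γ) (i : ℕ), wl (fun _ _ => ([] : List (Γ ⊕ Sym))) i l = [] := by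
        intro l
        induction l with
        | nil => intro i; rfl
        | cons g l ih => intro i; simp [wl, ih]
      rw [this]
  have h2 := ps_horP (inp := inpX) (len := List.length) (x := fun x : List Γ => x.length)
    (m := fun _ => 0) (t := fun _ => 0) (w := fun _ => 0) (p := fun _ => 0) (u := fun _ => 0)
    (i := fun _ => 0) pb_n lm
  have h3 : PS List.length inpX
      (Cmd.each (some Rh.Y) fun _ => Cmd.seq (Cmd.inc Rh.M) (Cmd.inc Rh.X) : PrH Γ)
      (fun x => rh x.length 0 0 0 0 0 0 (cm lm x) 0)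
      (fun x => rh (x.length + cm lm x) (cm lm x) 0 0 0 0 0 (cm lm x) 0) (fun _ => []) := by
    refine (ps_addLoop (r := Rh.Y) (σ := fun (x : List Γ) i => rh (x.length + i) i 0 0 0 0 0
      (cm lm x) 0) (N := cm lm) (fun _ => rfl) (pb_m lm) ?_)
    intro x i
    have e1 := Cmd.Spec.inc (inp := inpX x) (ρ := rh (x.length + i) i 0 0 0 0 0
      (cm lm x) 0) Rh.M
    rw [rh_M] at e1
    have e2 := Cmd.Spec.inc (inp := inpX x) (ρ := rh (x.length + i) (i + 1) 0 0 0 0 0
      (cm lm x) 0) Rh.X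
    rw [rh_X] at e2
    exact (e1.seq e2).mono (by omega)
  have h4 : PS List.length inpX (Cmd.clr Rh.Y : PrH Γ)
      (fun x => rh (x.length + cm lm x) (cm lm x) 0 0 0 0 0 (cm lm x) 0)
      (fun x => rh (x.length + cm lm x) (cm lm x) 0 0 0 0 0 0 0) (fun _ => []) :=
    (PS.clr Rh.Y (pb_m lm)).congr (fun _ => rfl) (fun _ => by rw [rh_Y]) (fun _ => rfl)
  have h5 := ps_horP (inp := inpX) (len := List.length)
    (x := fun x : List Γ => x.length + cm lm x)
    (m := cm lm) (t := fun _ => 0) (w := fun _ => 0) (p := fun _ => 0) (u := fun _ => 0)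
    (i := fun _ => 0) (pb_n.add (pb_m lm)) lt
  have h6 : PS List.length inpX
      (Cmd.each (some Rh.Y) fun _ => Cmd.seq (Cmd.inc Rh.T) (Cmd.inc Rh.W) : PrH Γ)
      (fun x => rh (x.length + cm lm x) (cm lm x) 0 0 0 0 0 (cT lm lt x) 0)
      (fun x => rh (x.length + cm lm x) (cm lm x) (cT lm lt x) (cT lm lt x) 0 0 0
        (cT lm lt x) 0) (fun _ => []) := by
    refine (ps_addLoop (r := Rh.Y) (σ := fun (x : List Γ) i => rh (x.length + cm lm x)
      (cm lm x) i i 0 0 0 (cT lm lt x) 0) (N := cT lm lt) (fun _ => rfl) (pb_T lm lt) ?_)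
    intro x i
    have e1 := Cmd.Spec.inc (inp := inpX x) (ρ := rh (x.length + cm lm x)
      (cm lm x) i i 0 0 0 (cT lm lt x) 0) Rh.T
    rw [rh_T] at e1
    have e2 := Cmd.Spec.inc (inp := inpX x) (ρ := rh (x.length + cm lm x)
      (cm lm x) (i + 1) i 0 0 0 (cT lm lt x) 0) Rh.W
    rw [rh_W] at e2
    exact (e1.seq e2).mono (by omega)
  have h7 : PS List.length inpX (Cmd.clr Rh.Y : PrH Γ)
      (fun x => rh (x.length + cm lm x) (cm lm x) (cT lm lt x) (cT lm lt x) 0 0 0
        (cT lm lt x) 0)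
      (fun x => rh (x.length + cm lm x) (cm lm x) (cT lm lt x) (cT lm lt x) 0 0 0 0 0)
      (fun _ => []) :=
    (PS.clr Rh.Y (pb_T lm lt)).congr (fun _ => rfl) (fun _ => by rw [rh_Y]) (fun _ => rfl)
  have h8 : PS List.length inpX (Cmd.each (some Rh.X) fun _ => Cmd.inc Rh.W : PrH Γ)
      (fun x => rh (x.length + cm lm x) (cm lm x) (cT lm lt x) (cT lm lt x) 0 0 0 0 0)
      (fun x => rh (x.length + cm lm x) (cm lm x) (cT lm lt x) (cW lm lt x) 0 0 0 0 0)
      (fun _ => []) := by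
    refine (ps_addLoop (r := Rh.X) (σ := fun (x : List Γ) i => rh (x.length + cm lm x)
      (cm lm x) (cT lm lt x) (cT lm lt x + i) 0 0 0 0 0) (N := fun x => x.length + cm lm x)
      (fun _ => rfl) (pb_n.add (pb_m lm)) ?_).congr (fun _ => rfl) (fun x => ?_) (fun _ => rfl)
    · intro x i
      have e1 := Cmd.Spec.inc (inp := inpX x) (ρ := rh (x.length + cm lm x)
        (cm lm x) (cT lm lt x) (cT lm lt x + i) 0 0 0 0 0) Rh.W
      rw [rh_W] at e1
      exact e1.mono (by omega)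
    · unfold cW; congr 1; ring
  exact (h1.seq (h2.seq (h3.seq (h4.seq (h5.seq (h6.seq (h7.seq h8))))))).congr
    (fun _ => rfl) (fun _ => rfl) (fun _ => rfl)

/-- The second part of the program: the clauses about the beginning. -/
noncomputable def prB : PrH Γ :=
  Cmd.seq (famP M.initQ) (Cmd.seq
    (Cmd.each none fun
      | Sum.inl g => Cmd.seq (famP (M.initX (sym g))) (Cmd.inc Rh.I)
      | Sum.inr _ => Cmd.skip) (Cmd.seq
    (Cmd.each (some Rh.M) fun _ => Cmd.seq (famP (M.initC a b)) (Cmd.inc Rh.I)) (Cmd.seq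
    (Cmd.each (some Rh.T) fun _ => Cmd.seq (famP M.initN) (Cmd.inc Rh.I)) (Cmd.seq
    (famP M.initN) (Cmd.seq
    (Cmd.clr Rh.I) (Cmd.seq
    (Cmd.each (some Rh.W) fun _ => Cmd.seq (famP M.initO) (Cmd.inc Rh.I)) (Cmd.seq
    (famP M.initO) (Cmd.clr Rh.I))))))))

/-- The formula of the input. -/
noncomputable def fm (x : List Γ) : Formula :=
  form (x.map sym) (cm lm x) (cT lm lt x) a b k₁ z

theorem wl_famX (l : List Γ) : ∀ i, wl (fun i g => encI Γ (fam 0 0 i (M.initX (sym g)))) i l =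
    encI Γ (famX i (l.map sym)) := by
  induction l with
  | nil => intro i; rfl
  | cons g l ih =>
    intro i
    rw [List.map_cons]
    unfold wl famX
    rw [encI_append, ih]

/-- A loop with `I` as its counter. -/
theorem ps_loopI {ι : Type} {len : ι → ℕ} {inp : ι → List (Γ ⊕ Sym)} {r : Rh}
    {x m t w p u s : ι → ℕ} (F : List (List M.TL))
    (hx : PB len x) (hm : PB len m) (ht : PB len t)
    (hw : PB len w) (hp : PB len p) (hu : PB len u) (hs : PB len s) {N : ι → ℕ}
    (hN : ∀ j i, rh (x j) (m j) (t j) (w j) (p j) (u j) i 0 0 r = N j) (hb : PB len N) :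
    PS len inp (Cmd.each (some r) fun _ => Cmd.seq (famP F) (Cmd.inc Rh.I) : PrH Γ)
      (fun j => rh (x j) (m j) (t j) (w j) (p j) (u j) (s j) 0 0)
      (fun j => rh (x j) (m j) (t j) (w j) (p j) (u j) (s j + N j) 0 0)
      (fun j => (List.range (N j)).flatMap fun i => encI Γ (fam (p j) (u j) (s j + i) F)) := by
  refine PS.for (σ := fun j i => rh (x j) (m j) (t j) (w j) (p j) (u j) (s j + i) 0 0)
    (w := fun j i => encI Γ (fam (p j) (u j) (s j + i) F)) (fun j => hN j _) hb ?_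
  have hbd : Bd (fun q : Σ j, Fin (N j) => len q.1) (fun q => rh (x q.1) (m q.1) (t q.1) (w q.1)
      (p q.1) (u q.1) (s q.1 + q.2) 0 0) := by
    refine bd_rh (hx.comp Sigma.fst) (hm.comp Sigma.fst) (ht.comp Sigma.fst)
      (hw.comp Sigma.fst) (hp.comp Sigma.fst) (hu.comp Sigma.fst) ?_ (PB.const 0) (PB.const 0)
    refine ((hs.comp Sigma.fst).add (hb.comp Sigma.fst)).mono fun q => ?_
    exact Nat.add_le_add_left q.2.isLt.le _
  refine ((ps_famP hbd F).seq (PS.inc Rh.I)).congr (fun _ => rfl) (fun q => ?_) (fun q => ?_)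
  · rw [rh_I]; rfl
  · simp only [List.append_nil]; rfl

theorem ps_prB : PS List.length inpX (prB sym a b : PrH Γ)
    (fun x => rh (x.length + cm lm x) (cm lm x) (cT lm lt x) (cW lm lt x) 0 0 0 0 0)
    (fun x => rh (x.length + cm lm x) (cm lm x) (cT lm lt x) (cW lm lt x) 0 0 0 0 0)
    (fun x => encI Γ (fam 0 0 0 M.initQ) ++ (encI Γ (famX 0 (x.map sym)) ++
      (((List.range (cm lm x)).flatMap fun j => encI Γ (fam 0 0 (x.length + j) (M.initC a b))) ++
      (((List.range (cT lm lt x)).flatMap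
          fun j => encI Γ (fam 0 0 (x.length + cm lm x + j) M.initN)) ++
        (encI Γ (fam 0 0 (cW lm lt x) M.initN) ++
      (((List.range (cW lm lt x)).flatMap fun j => encI Γ (fam 0 0 j M.initO)) ++
        encI Γ (fam 0 0 (cW lm lt x) M.initO))))))) := by
  have bX : PB List.length fun x : List Γ => x.length + cm lm x := pb_n.add (pb_m lm)
  have bM := pb_m (Γ := Γ) lm
  have bT := pb_T (Γ := Γ) lm lt
  have bW := pb_W (Γ := Γ) lm lt
  have b0 : PB List.length fun _ : List Γ => 0 := PB.const 0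
  have h1 := ps_famP (inp := inpX) (bd_rh bX bM bT bW b0 b0 b0 b0 b0) M.initQ
  have h2 : PS List.length inpX (Cmd.each none fun
      | Sum.inl g => Cmd.seq (famP (M.initX (sym g))) (Cmd.inc Rh.I)
      | Sum.inr _ => Cmd.skip : PrH Γ)
      (fun x => rh (x.length + cm lm x) (cm lm x) (cT lm lt x) (cW lm lt x) 0 0 0 0 0)
      (fun x => rh (x.length + cm lm x) (cm lm x) (cT lm lt x) (cW lm lt x) 0 0 x.length 0 0)
      (fun x => encI Γ (famX 0 (x.map sym))) := by
    refine (ps_scan (σ := fun x i => rh (x.length + cm lm x) (cm lm x) (cT lm lt x)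
      (cW lm lt x) 0 0 i 0 0) (w := fun i g => encI Γ (fam 0 0 i (M.initX (sym g)))) ?_).congr
      (fun _ => rfl) (fun _ => rfl) (fun x => (wl_famX sym x 0).symm)
    intro g
    have hbd : Bd (fun q : Σ x : List Γ, Fin x.length => q.1.length) (fun q =>
        rh (q.1.length + cm lm q.1) (cm lm q.1) (cT lm lt q.1) (cW lm lt q.1) 0 0 q.2 0 0) := by
      refine bd_rh (bX.comp Sigma.fst) (bM.comp Sigma.fst) (bT.comp Sigma.fst)
        (bW.comp Sigma.fst) (PB.const 0) (PB.const 0) ?_ (PB.const 0) (PB.const 0)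
      exact (pb_n.comp Sigma.fst).mono fun q => q.2.isLt.le
    refine ((ps_famP hbd (M.initX (sym g))).seq (PS.inc Rh.I)).congr (fun _ => rfl)
      (fun q => ?_) (fun q => ?_)
    · rw [rh_I]; rfl
    · simp only [List.append_nil]; rfl
  have h3 := ps_loopI (Γ := Γ) (inp := inpX) (r := Rh.M) (M.initC a b) bX bM bT bW b0
    b0 pb_n (fun _ _ => rfl) bM
  have h4 := ps_loopI (Γ := Γ) (inp := inpX) (r := Rh.T) M.initN bX bM bT bW b0
    b0 bX (fun _ _ => rfl) bT
  have h5 := ps_famP (inp := inpX) (bd_rh bX bM bT bW b0 b0 bW b0 b0) M.initN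
  have h6 : PS List.length inpX (Cmd.clr Rh.I : PrH Γ)
      (fun x => rh (x.length + cm lm x) (cm lm x) (cT lm lt x) (cW lm lt x) 0 0 (cW lm lt x) 0 0)
      (fun x => rh (x.length + cm lm x) (cm lm x) (cT lm lt x) (cW lm lt x) 0 0 0 0 0)
      (fun _ => []) :=
    (PS.clr Rh.I bW).congr (fun _ => rfl) (fun _ => by rw [rh_I]) (fun _ => rfl)
  have h7 := ps_loopI (Γ := Γ) (inp := inpX) (r := Rh.W) M.initO bX bM bT bW b0
    b0 b0 (fun _ _ => rfl) bW
  have h8 := ps_famP (inp := inpX) (bd_rh bX bM bT bW b0 b0 bW b0 b0) M.initO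
  refine (h1.seq (h2.seq (h3.seq (h4.seq (h5.seq (h6.seq ((h7.congr (fun _ => rfl)
    (fun x => ?_) (fun _ => rfl)).seq (h8.seq h6)))))))).congr (fun _ => rfl) (fun _ => rfl)
    (fun x => ?_)
  · simp only [Nat.zero_add]
    rfl
  · simp only [List.append_nil, List.nil_append, Nat.zero_add]
    rfl

/-- The third part of the program: the clauses about the steps. -/
noncomputable def prC (M : SM) : PrH Γ :=
  Cmd.seq (Cmd.each (some Rh.W) fun _ => Cmd.inc Rh.U) (Cmd.seq (Cmd.inc Rh.U)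
    (Cmd.each (some Rh.T) fun _ => Cmd.seq (famP M.stepA) (Cmd.seq
      (Cmd.each (some Rh.W) fun _ => Cmd.seq (famP M.stepB) (Cmd.inc Rh.I)) (Cmd.seq
      (Cmd.clr Rh.I) (Cmd.seq
      (Cmd.each (some Rh.W) fun _ => Cmd.seq (Cmd.inc Rh.P) (Cmd.inc Rh.U)) (Cmd.seq
      (Cmd.inc Rh.P) (Cmd.inc Rh.U)))))))

theorem ps_prC : PS List.length inpX (prC M : PrH Γ)
    (fun x => rh (x.length + cm lm x) (cm lm x) (cT lm lt x) (cW lm lt x) 0 0 0 0 0)
    (fun x => rh (x.length + cm lm x) (cm lm x) (cT lm lt x) (cW lm lt x)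
      (cT lm lt x * (cW lm lt x + 1)) ((cT lm lt x + 1) * (cW lm lt x + 1)) 0 0 0)
    (fun x => (List.range (cT lm lt x)).flatMap fun t =>
      encI Γ (fam (t * (cW lm lt x + 1)) ((t + 1) * (cW lm lt x + 1)) 0 M.stepA) ++
        (List.range (cW lm lt x)).flatMap fun i =>
          encI Γ (fam (t * (cW lm lt x + 1)) ((t + 1) * (cW lm lt x + 1)) i M.stepB)) := by
  have bX : PB List.length fun x : List Γ => x.length + cm lm x := pb_n.add (pb_m lm)
  have bM := pb_m (Γ := Γ) lm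
  have bT := pb_T (Γ := Γ) lm lt
  have bW := pb_W (Γ := Γ) lm lt
  have b0 : PB List.length fun _ : List Γ => 0 := PB.const 0
  have h1 : PS List.length inpX (Cmd.each (some Rh.W) fun _ => Cmd.inc Rh.U : PrH Γ)
      (fun x => rh (x.length + cm lm x) (cm lm x) (cT lm lt x) (cW lm lt x) 0 0 0 0 0)
      (fun x => rh (x.length + cm lm x) (cm lm x) (cT lm lt x) (cW lm lt x) 0 (cW lm lt x) 0 0 0)
      (fun _ => []) := by
    refine (ps_addLoop (r := Rh.W) (σ := fun (x : List Γ) i => rh (x.length + cm lm x)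
      (cm lm x) (cT lm lt x) (cW lm lt x) 0 i 0 0 0) (N := cW lm lt) (fun _ => rfl) bW ?_)
    intro x i
    have e1 := Cmd.Spec.inc (inp := inpX x) (ρ := rh (x.length + cm lm x)
      (cm lm x) (cT lm lt x) (cW lm lt x) 0 i 0 0 0) Rh.U
    rw [rh_U] at e1
    exact e1.mono (by omega)
  have h2 : PS List.length inpX (Cmd.inc Rh.U : PrH Γ)
      (fun x => rh (x.length + cm lm x) (cm lm x) (cT lm lt x) (cW lm lt x) 0 (cW lm lt x) 0 0 0)
      (fun x => rh (x.length + cm lm x) (cm lm x) (cT lm lt x) (cW lm lt x) 0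
        (cW lm lt x + 1) 0 0 0) (fun _ => []) :=
    (PS.inc Rh.U).congr (fun _ => rfl) (fun _ => by rw [rh_U]; rfl) (fun _ => rfl)
  have h3 : PS List.length inpX (Cmd.each (some Rh.T) fun _ => Cmd.seq (famP M.stepA) (Cmd.seq
      (Cmd.each (some Rh.W) fun _ => Cmd.seq (famP M.stepB) (Cmd.inc Rh.I)) (Cmd.seq
      (Cmd.clr Rh.I) (Cmd.seq
      (Cmd.each (some Rh.W) fun _ => Cmd.seq (Cmd.inc Rh.P) (Cmd.inc Rh.U)) (Cmd.seq
      (Cmd.inc Rh.P) (Cmd.inc Rh.U))))) : PrH Γ)
      (fun x => rh (x.length + cm lm x) (cm lm x) (cT lm lt x) (cW lm lt x)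
        (0 * (cW lm lt x + 1)) ((0 + 1) * (cW lm lt x + 1)) 0 0 0)
      (fun x => rh (x.length + cm lm x) (cm lm x) (cT lm lt x) (cW lm lt x)
        (cT lm lt x * (cW lm lt x + 1)) ((cT lm lt x + 1) * (cW lm lt x + 1)) 0 0 0)
      (fun x => (List.range (cT lm lt x)).flatMap fun t =>
        encI Γ (fam (t * (cW lm lt x + 1)) ((t + 1) * (cW lm lt x + 1)) 0 M.stepA) ++
          (List.range (cW lm lt x)).flatMap fun i =>
            encI Γ (fam (t * (cW lm lt x + 1)) ((t + 1) * (cW lm lt x + 1)) i M.stepB)) := by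
    refine PS.for (r := Rh.T) (σ := fun x t => rh (x.length + cm lm x) (cm lm x) (cT lm lt x)
      (cW lm lt x) (t * (cW lm lt x + 1)) ((t + 1) * (cW lm lt x + 1)) 0 0 0)
      (N := cT lm lt) (w := fun x t => encI Γ (fam (t * (cW lm lt x + 1))
        ((t + 1) * (cW lm lt x + 1)) 0 M.stepA) ++ (List.range (cW lm lt x)).flatMap fun i =>
            encI Γ (fam (t * (cW lm lt x + 1)) ((t + 1) * (cW lm lt x + 1)) i M.stepB))
      (fun _ => rfl) bT ?_
    -- bounds
    have cX := bX.comp (Sigma.fst : (Σ x : List Γ, Fin (cT lm lt x)) → List Γ)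
    have cM := bM.comp (Sigma.fst : (Σ x : List Γ, Fin (cT lm lt x)) → List Γ)
    have cTT := bT.comp (Sigma.fst : (Σ x : List Γ, Fin (cT lm lt x)) → List Γ)
    have cWW := bW.comp (Sigma.fst : (Σ x : List Γ, Fin (cT lm lt x)) → List Γ)
    have c0 : PB (fun q : Σ x : List Γ, Fin (cT lm lt x) => q.1.length) fun _ => 0 := PB.const 0
    have cP : PB (fun q : Σ x : List Γ, Fin (cT lm lt x) => q.1.length)
        fun q => q.2 * (cW lm lt q.1 + 1) :=
      (cTT.mul (cWW.add (PB.const 1))).mono fun q => Nat.mul_le_mul_right _ q.2.isLt.le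
    have cU : PB (fun q : Σ x : List Γ, Fin (cT lm lt x) => q.1.length)
        fun q => (q.2 + 1) * (cW lm lt q.1 + 1) :=
      ((cTT.add (PB.const 1)).mul (cWW.add (PB.const 1))).mono
        fun q => Nat.mul_le_mul_right _ (Nat.add_le_add_right q.2.isLt.le 1)
    have s1 := ps_famP (inp := fun q : Σ x : List Γ, Fin (cT lm lt x) => inpX q.1)
      (bd_rh cX cM cTT cWW cP cU c0 c0 c0) M.stepA
    have s2 := ps_loopI (Γ := Γ) (inp := fun q : Σ x : List Γ, Fin (cT lm lt x) => inpX q.1)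
      (r := Rh.W) M.stepB cX cM cTT cWW cP cU c0 (fun _ _ => rfl) cWW
    have s3 : PS (fun q : Σ x : List Γ, Fin (cT lm lt x) => q.1.length) (fun q => inpX q.1)
        (Cmd.clr Rh.I : PrH Γ)
        (fun q => rh (q.1.length + cm lm q.1) (cm lm q.1) (cT lm lt q.1) (cW lm lt q.1)
          (q.2 * (cW lm lt q.1 + 1)) ((q.2 + 1) * (cW lm lt q.1 + 1)) (cW lm lt q.1) 0 0)
        (fun q => rh (q.1.length + cm lm q.1) (cm lm q.1) (cT lm lt q.1) (cW lm lt q.1)
          (q.2 * (cW lm lt q.1 + 1)) ((q.2 + 1) * (cW lm lt q.1 + 1)) 0 0 0) (fun _ => []) :=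
      (PS.clr Rh.I cWW).congr (fun _ => rfl) (fun _ => by rw [rh_I]) (fun _ => rfl)
    have s4 : PS (fun q : Σ x : List Γ, Fin (cT lm lt x) => q.1.length) (fun q => inpX q.1)
        (Cmd.each (some Rh.W) fun _ => Cmd.seq (Cmd.inc Rh.P) (Cmd.inc Rh.U) : PrH Γ)
        (fun q => rh (q.1.length + cm lm q.1) (cm lm q.1) (cT lm lt q.1) (cW lm lt q.1)
          (q.2 * (cW lm lt q.1 + 1)) ((q.2 + 1) * (cW lm lt q.1 + 1)) 0 0 0)
        (fun q => rh (q.1.length + cm lm q.1) (cm lm q.1) (cT lm lt q.1) (cW lm lt q.1)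
          (q.2 * (cW lm lt q.1 + 1) + cW lm lt q.1)
          ((q.2 + 1) * (cW lm lt q.1 + 1) + cW lm lt q.1) 0 0 0) (fun _ => []) := by
      refine (ps_addLoop (r := Rh.W) (σ := fun (q : Σ x : List Γ, Fin (cT lm lt x)) i =>
        rh (q.1.length + cm lm q.1) (cm lm q.1) (cT lm lt q.1) (cW lm lt q.1)
          (q.2 * (cW lm lt q.1 + 1) + i) ((q.2 + 1) * (cW lm lt q.1 + 1) + i) 0 0 0)
        (N := fun q => cW lm lt q.1) (fun _ => rfl) cWW ?_)
      intro q i
      have e1 := Cmd.Spec.inc (inp := inpX q.1) (ρ := rh (q.1.length + cm lm q.1) (cm lm q.1)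
        (cT lm lt q.1) (cW lm lt q.1) (q.2 * (cW lm lt q.1 + 1) + i)
        ((q.2 + 1) * (cW lm lt q.1 + 1) + i) 0 0 0) Rh.P
      rw [rh_P] at e1
      have e2 := Cmd.Spec.inc (inp := inpX q.1) (ρ := rh (q.1.length + cm lm q.1) (cm lm q.1)
        (cT lm lt q.1) (cW lm lt q.1) (q.2 * (cW lm lt q.1 + 1) + i + 1)
        ((q.2 + 1) * (cW lm lt q.1 + 1) + i) 0 0 0) Rh.U
      rw [rh_U] at e2
      exact (e1.seq e2).mono (by omega)
    have s5 : PS (fun q : Σ x : List Γ, Fin (cT lm lt x) => q.1.length) (fun q => inpX q.1)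
        (Cmd.seq (Cmd.inc Rh.P) (Cmd.inc Rh.U) : PrH Γ)
        (fun q => rh (q.1.length + cm lm q.1) (cm lm q.1) (cT lm lt q.1) (cW lm lt q.1)
          (q.2 * (cW lm lt q.1 + 1) + cW lm lt q.1)
          ((q.2 + 1) * (cW lm lt q.1 + 1) + cW lm lt q.1) 0 0 0)
        (fun q => rh (q.1.length + cm lm q.1) (cm lm q.1) (cT lm lt q.1) (cW lm lt q.1)
          ((q.2 + 1) * (cW lm lt q.1 + 1)) ((q.2 + 1 + 1) * (cW lm lt q.1 + 1)) 0 0 0)
        (fun _ => []) := by
      refine ((PS.inc Rh.P).seq (PS.inc Rh.U)).congr (fun _ => rfl) (fun q => ?_) (fun _ => rfl)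
      rw [rh_P, rh_U]
      show _ = rh _ _ _ _ (q.2 * (cW lm lt q.1 + 1) + cW lm lt q.1 + 1)
        ((q.2 + 1) * (cW lm lt q.1 + 1) + cW lm lt q.1 + 1) 0 0 0
      congr 1 <;> ring
    refine (s1.seq ((s2.congr (fun _ => rfl) (fun q => ?_) (fun _ => rfl)).seq
      (s3.seq (s4.seq s5)))).congr (fun _ => rfl) (fun _ => rfl) (fun q => ?_)
    · rw [Nat.zero_add]
      rfl
    · simp only [List.append_nil, Nat.zero_add]
      rfl
  refine (h1.seq (h2.seq (h3.congr (fun x => ?_) (fun _ => rfl) (fun _ => rfl)))).congr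
    (fun _ => rfl) (fun _ => rfl) (fun x => ?_)
  · simp only [Nat.zero_mul, Nat.zero_add, Nat.one_mul]
  · simp only [List.nil_append]

end Pool.Agent.Lib.CookLevin
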