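import Mathlib

/-!
# Turing machines of Mathlib as machines with several stacks

The definitions and proofs of this file are due to helper76 (files `Game.lean` and `Sim.lean` of
`Pool.Agent.Lib.MP_ce3b04_lc`); they are repeated here so that this library does not depend on the
rest of that development.
-/

open Turing Turing.TM2 Function

set_option linter.unusedSimpArgs false
set_option linter.unusedSectionVars false

namespace Pool.Agent.Lib.CookLevin

/-- Actions on a stack. -/
inductive Act (G : Type) : Type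
  | keep : Act G
  | pop : Act G
  | push (g : G) : Act G

/-- Execution of an action. The top of the stack is the head of the list. -/
def Act.run {G : Type} : Act G → List G → List G
  | .keep, l => l
  | .pop, l => l.tail
  | .push g, l => g :: l

/-- A deterministic machine with several stacks. -/
structure SM where
  /-- stacks -/
  K : Type
  /-- symbols -/
  G : Type
  /-- states -/
  Q : Type
  /-- the next state -/
  δ : Q → (K → Option G) → Q
  /-- the actions -/
  act : Q → (K → Option G) → K → Act G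
  /-- the initial state -/
  q₀ : Q
  /-- the input stack -/
  k₀ : K
  [finK : Finite K]
  [finG : Finite G]
  [finQ : Finite Q]

attribute [instance] SM.finK SM.finG SM.finQ

namespace SM

variable (M : SM)

/-- One step. -/
def step (c : M.Q × (M.K → List M.G)) : M.Q × (M.K → List M.G) :=
  (M.δ c.1 (fun k => (c.2 k).head?),
    fun k => (M.act c.1 (fun k => (c.2 k).head?) k).run (c.2 k))

open Classical in
/-- The configuration at time `t`. -/
noncomputable def conf (w : List M.G) : ℕ → M.Q × (M.K → List M.G)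
  | 0 => (M.q₀, fun k => if k = M.k₀ then w else [])
  | t + 1 => M.step (conf w t)

end SM

section micro

variable {K : Type} [DecidableEq K] {Γ : K → Type} {Λ σ : Type}

/-- One elementary step of a machine. -/
def mstep (m : Λ → Stmt Γ Λ σ) :
    Stmt Γ Λ σ × σ × (∀ k, List (Γ k)) → Stmt Γ Λ σ × σ × (∀ k, List (Γ k))
  | (.push k f q, v, S) => (q, v, update S k (f v :: S k))
  | (.peek k f q, v, S) => (q, f v (S k).head?, S)
  | (.pop k f q, v, S) => (q, f v (S k).head?, update S k (S k).tail)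
  | (.load a q, v, S) => (q, a v, S)
  | (.branch f q₁ q₂, v, S) => (cond (f v) q₁ q₂, v, S)
  | (.goto f, v, S) => (m (f v), v, S)
  | (.halt, v, S) => (.halt, v, S)

/-- The elementary configuration. -/
def toMC (m : Λ → Stmt Γ Λ σ) : Cfg Γ Λ σ → Stmt Γ Λ σ × σ × (∀ k, List (Γ k))
  | ⟨none, v, S⟩ => (.halt, v, S)
  | ⟨some l, v, S⟩ => (m l, v, S)

/-- The height of a statement. -/
def height : Stmt Γ Λ σ → ℕ
  | .push _ _ q => height q + 1
  | .peek _ _ q => height q + 1
  | .pop _ _ q => height q + 1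
  | .load _ q => height q + 1
  | .branch _ q₁ q₂ => max (height q₁) (height q₂) + 1
  | .goto _ => 1
  | .halt => 0

theorem mstep_stepAux (m : Λ → Stmt Γ Λ σ) (q : Stmt Γ Λ σ) (v : σ) (S : ∀ k, List (Γ k)) :
    ∃ n ≤ height q, (mstep m)^[n] (q, v, S) = toMC m (stepAux q v S) := by
  induction q generalizing v S with
  | push k f q ih =>
    obtain ⟨n, hn, h⟩ := ih v (update S k (f v :: S k))
    exact ⟨n + 1, Nat.succ_le_succ hn, h⟩
  | peek k f q ih =>
    obtain ⟨n, hn, h⟩ := ih (f v (S k).head?) S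
    exact ⟨n + 1, Nat.succ_le_succ hn, h⟩
  | pop k f q ih =>
    obtain ⟨n, hn, h⟩ := ih (f v (S k).head?) (update S k (S k).tail)
    exact ⟨n + 1, Nat.succ_le_succ hn, h⟩
  | load a q ih =>
    obtain ⟨n, hn, h⟩ := ih (a v) S
    exact ⟨n + 1, Nat.succ_le_succ hn, h⟩
  | branch f q₁ q₂ ih₁ ih₂ =>
    cases hf : f v with
    | true =>
      obtain ⟨n, hn, h⟩ := ih₁ v S
      refine ⟨n + 1, Nat.succ_le_succ (hn.trans (le_max_left _ _)), ?_⟩
      rw [Function.iterate_succ_apply]
      simp only [mstep, stepAux, hf, cond_true]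
      exact h
    | false =>
      obtain ⟨n, hn, h⟩ := ih₂ v S
      refine ⟨n + 1, Nat.succ_le_succ (hn.trans (le_max_right _ _)), ?_⟩
      rw [Function.iterate_succ_apply]
      simp only [mstep, stepAux, hf, cond_false]
      exact h
  | goto f => exact ⟨1, le_rfl, rfl⟩
  | halt => exact ⟨0, le_rfl, rfl⟩

theorem iterate_none_all {α : Type} (f : α → Option α) (n : ℕ) :
    (flip bind f)^[n] (none : Option α) = none := by
  induction n with
  | zero => rfl
  | succ n ih => rw [Function.iterate_succ_apply]; exact ih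

theorem mstep_iterate (m : Λ → Stmt Γ Λ σ) (b : ℕ) (hb : ∀ l, height (m l) ≤ b) (n : ℕ)
    (c c' : Cfg Γ Λ σ) (h : (flip bind (TM2.step m))^[n] (some c) = some c') :
    ∃ n' ≤ b * n, (mstep m)^[n'] (toMC m c) = toMC m c' := by
  induction n generalizing c with
  | zero =>
    obtain rfl : c = c' := by simpa using h
    exact ⟨0, Nat.zero_le _, rfl⟩
  | succ n ih =>
    rw [Function.iterate_succ_apply] at h
    obtain ⟨l, v, S⟩ := c
    cases l with
    | none =>
      change (flip bind (TM2.step m))^[n] none = some c' at h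
      rw [iterate_none_all] at h
      cases h
    | some l =>
      obtain ⟨n₁, h1, h2⟩ := ih (stepAux (m l) v S) h
      obtain ⟨n₂, h3, h4⟩ := mstep_stepAux m (m l) v S
      refine ⟨n₁ + n₂, ?_, ?_⟩
      · have := hb l
        rw [Nat.mul_succ]
        omega
      · rw [Function.iterate_add_apply]
        rw [← h2, ← h4]
        rfl

theorem mstep_halt (m : Λ → Stmt Γ Λ σ) (n : ℕ) (v : σ) (S : ∀ k, List (Γ k)) :
    (mstep m)^[n] (.halt, v, S) = (.halt, v, S) := by
  induction n with
  | zero => rfl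
  | succ n ih => rw [Function.iterate_succ_apply]; exact ih

end micro

section machine

variable {K : Type} [DecidableEq K] {Γ : K → Type} {Λ σ : Type}

/-- Statements of the machine. -/
def stSet (m : Λ → Stmt Γ Λ σ) : Set (Stmt Γ Λ σ) :=
  {s | s = .halt ∨ ∃ l, s ∈ stmts₁ (m l)}

theorem stSet_finite [Finite Λ] (m : Λ → Stmt Γ Λ σ) : (stSet m).Finite := by
  have : stSet m = {Stmt.halt} ∪ ⋃ l, (↑(stmts₁ (m l)) : Set (Stmt Γ Λ σ)) := by
    ext s
    simp [stSet]
  rw [this]
  exact (Set.finite_singleton _).union (Set.finite_iUnion fun l => Finset.finite_toSet _)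

theorem stSet_label (m : Λ → Stmt Γ Λ σ) (l : Λ) : m l ∈ stSet m :=
  Or.inr ⟨l, stmts₁_self⟩

theorem stSet_halt (m : Λ → Stmt Γ Λ σ) : Stmt.halt ∈ stSet m := Or.inl rfl

theorem stSet_sub {m : Λ → Stmt Γ Λ σ} {s s' : Stmt Γ Λ σ} (h : s ∈ stSet m)
    (h' : s' ∈ stmts₁ s) : s' ∈ stSet m := by
  rcases h with rfl | ⟨l, hl⟩
  · simp [stmts₁] at h'
    exact Or.inl h'
  · exact Or.inr ⟨l, stmts₁_trans hl h'⟩

/-- The symbol pushed by a statement. -/
def psym : Stmt Γ Λ σ → σ → Option (Σ k, Γ k)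
  | .push k f _, v => some ⟨k, f v⟩
  | _, _ => none

/-- Symbols of the machine: the symbols of the input stack, a given symbol, and all symbols pushed
by the machine. -/
def syset (m : Λ → Stmt Γ Λ σ) (k₀ : K) (x₁ : Σ k, Γ k) : Set (Σ k, Γ k) :=
  {x | (∃ a, x = ⟨k₀, a⟩) ∨ x = x₁ ∨ ∃ s ∈ stSet m, ∃ v, psym s v = some x}

theorem syset_finite [Finite Λ] [Finite σ] (m : Λ → Stmt Γ Λ σ) (k₀ : K) [Finite (Γ k₀)]
    (x₁ : Σ k, Γ k) : (syset m k₀ x₁).Finite := by
  have h1 : (Set.range fun a : Γ k₀ => (⟨k₀, a⟩ : Σ k, Γ k)).Finite := Set.finite_range _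
  have h2 : ((stSet m ×ˢ (Set.univ : Set σ)).image fun p => psym p.1 p.2).Finite :=
    ((stSet_finite m).prod (Set.toFinite _)).image _
  have h3 : (some ⁻¹' ((stSet m ×ˢ (Set.univ : Set σ)).image fun p => psym p.1 p.2)).Finite :=
    h2.preimage (Option.some_injective _).injOn
  refine ((h1.union (Set.finite_singleton x₁)).union h3).subset ?_
  rintro x (⟨a, rfl⟩ | rfl | ⟨s, hs, v, hv⟩)
  · exact Or.inl (Or.inl ⟨a, rfl⟩)
  · exact Or.inl (Or.inr rfl)
  · exact Or.inr ⟨(s, v), ⟨hs, trivial⟩, hv⟩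

/-- The symbol of the stack `k`. -/
def unS {P : Set (Σ k, Γ k)} (k : K) (o : Option P) : Option (Γ k) :=
  o.bind fun x => if h : x.1.1 = k then some (h ▸ x.1.2) else none

/-- The next statement. -/
def dl (m : Λ → Stmt Γ Λ σ) {P : Set (Σ k, Γ k)} :
    Stmt Γ Λ σ → σ → (K → Option P) → Stmt Γ Λ σ × σ
  | .push _ _ q, v, _ => (q, v)
  | .peek k f q, v, g => (q, f v (unS k (g k)))
  | .pop k f q, v, g => (q, f v (unS k (g k)))
  | .load a q, v, _ => (q, a v)
  | .branch f q₁ q₂, v, _ => (cond (f v) q₁ q₂, v)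
  | .goto f, v, _ => (m (f v), v)
  | .halt, v, _ => (.halt, v)

theorem dl_mem {m : Λ → Stmt Γ Λ σ} {P : Set (Σ k, Γ k)} {s : Stmt Γ Λ σ} (h : s ∈ stSet m)
    (v : σ) (g : K → Option P) : (dl m s v g).1 ∈ stSet m := by
  cases s with
  | push k f q => exact stSet_sub h (by simp [dl, stmts₁, stmts₁_self])
  | peek k f q => exact stSet_sub h (by simp [dl, stmts₁, stmts₁_self])
  | pop k f q => exact stSet_sub h (by simp [dl, stmts₁, stmts₁_self])
  | load a q => exact stSet_sub h (by simp [dl, stmts₁, stmts₁_self])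
  | branch f q₁ q₂ =>
    simp only [dl]
    cases f v
    · exact stSet_sub h (by simp [stmts₁, stmts₁_self])
    · exact stSet_sub h (by simp [stmts₁, stmts₁_self])
  | goto f => exact stSet_label m _
  | halt => exact stSet_halt m

open Classical in
/-- The actions. -/
noncomputable def actS {P : Set (Σ k, Γ k)} : Stmt Γ Λ σ → σ → K → Act P
  | .push k' f _, v, k =>
    if h : k = k' ∧ (⟨k', f v⟩ : Σ k, Γ k) ∈ P then .push ⟨_, h.2⟩ else .keep
  | .pop k' _ _, _, k => if k = k' then .pop else .keep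
  | _, _, _ => .keep

/-- The stack machine. -/
noncomputable def smOf [Finite K] [Finite Λ] [Finite σ] (m : Λ → Stmt Γ Λ σ) (main : Λ) (v₀ : σ)
    (k₀ : K) [Finite (Γ k₀)] (x₁ : Σ k, Γ k) : SM where
  K := K
  G := syset m k₀ x₁
  Q := {s // s ∈ stSet m} × σ
  δ := fun q g => (⟨(dl m q.1.1 q.2 g).1, dl_mem q.1.2 q.2 g⟩, (dl m q.1.1 q.2 g).2)
  act := fun q _ k => actS q.1.1 q.2 k
  q₀ := (⟨m main, stSet_label m main⟩, v₀)
  k₀ := k₀
  finG := (syset_finite m k₀ x₁).to_subtype
  finQ := by
    have := (stSet_finite m).to_subtype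
    exact (inferInstance : Finite ({s // s ∈ stSet m} × σ))

/-- The stack `S'` represents the stack `S`. -/
def RelS {P : Set (Σ k, Γ k)} (k : K) (S' : List P) (S : List (Γ k)) : Prop :=
  S'.map Subtype.val = S.map (Sigma.mk k)

theorem RelS.head {P : Set (Σ k, Γ k)} {k : K} {S' : List P} {S : List (Γ k)}
    (h : RelS k S' S) : unS k S'.head? = S.head? := by
  cases S with
  | nil =>
    cases S' with
    | nil => rfl
    | cons x S' => simp [RelS] at h
  | cons a S =>
    cases S' with
    | nil => simp [RelS] at h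
    | cons x S' =>
      obtain ⟨⟨k', a'⟩, hx⟩ := x
      simp only [RelS, List.map_cons, List.cons.injEq, Sigma.mk.injEq] at h
      obtain ⟨⟨rfl, h1⟩, _⟩ := h
      obtain rfl := eq_of_heq h1
      simp [unS]

theorem RelS.top {P : Set (Σ k, Γ k)} {k : K} {S' : List P} {S : List (Γ k)}
    (h1 : RelS k S' S) (a : Γ k) (h : (⟨k, a⟩ : Σ k, Γ k) ∈ P) :
    S'[0]? = some (⟨⟨k, a⟩, h⟩ : P) ↔ S.head? = some a := by
  rw [← List.head?_eq_getElem?]
  constructor
  · intro h3
    rw [← h1.head, h3]
    simp [unS]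
  · intro h3
    cases S with
    | nil => simp at h3
    | cons b S =>
      obtain rfl : b = a := by simpa using h3
      cases S' with
      | nil => simp [RelS] at h1
      | cons x S' =>
        have h4 : (x : P).1 = ⟨k, b⟩ := by
          simp only [RelS, List.map_cons, List.cons.injEq] at h1
          exact h1.1
        have h5 : (x : P) = ⟨⟨k, b⟩, h⟩ := Subtype.ext h4
        exact congrArg some h5

theorem RelS.tail {P : Set (Σ k, Γ k)} {k : K} {S' : List P} {S : List (Γ k)}
    (h : RelS k S' S) : RelS k S'.tail S.tail := by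
  simp only [RelS] at h ⊢
  rw [List.map_tail, List.map_tail, h]

variable [Finite K] [Finite Λ] [Finite σ] (m : Λ → Stmt Γ Λ σ) (main : Λ) (v₀ : σ)
    (k₀ : K) [Finite (Γ k₀)] (x₁ : Σ k, Γ k)

/-- The configuration of the stack machine represents the elementary configuration. -/
def Rel (c' : (smOf m main v₀ k₀ x₁).Q × (K → List (smOf m main v₀ k₀ x₁).G))
    (c : Stmt Γ Λ σ × σ × (∀ k, List (Γ k))) : Prop :=
  c'.1.1.1 = c.1 ∧ c'.1.2 = c.2.1 ∧
    ∀ k, RelS (P := syset m k₀ x₁) k (c'.2 k) (c.2.2 k)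

theorem rel_step {c' : (smOf m main v₀ k₀ x₁).Q × (K → List (smOf m main v₀ k₀ x₁).G)}
    {c : Stmt Γ Λ σ × σ × (∀ k, List (Γ k))} (h : Rel m main v₀ k₀ x₁ c' c) :
    Rel m main v₀ k₀ x₁ ((smOf m main v₀ k₀ x₁).step c') (mstep m c) := by
  obtain ⟨⟨⟨s, hs⟩, v⟩, S'⟩ := c'
  obtain ⟨s₁, v₁, S⟩ := c
  obtain ⟨h1, h2, h3⟩ := h
  simp only at h1 h2 h3
  subst h1 h2
  have hh := fun k => (h3 k).head
  cases s with
  | push k f q =>
    refine ⟨rfl, rfl, ?_⟩
    intro k'
    have hmem : (⟨k, f v⟩ : Σ k, Γ k) ∈ syset m k₀ x₁ := Or.inr (Or.inr ⟨_, hs, v, rfl⟩)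
    by_cases hk : k' = k
    · subst hk
      change RelS k' ((actS (.push k' f q) v k').run (S' k')) (update S k' (f v :: S k') k')
      rw [update_self, actS, dif_pos ⟨rfl, hmem⟩]
      exact congrArg (List.cons (⟨k', f v⟩ : Σ k, Γ k)) (h3 k')
    · change RelS k' ((actS (.push k f q) v k').run (S' k')) (update S k (f v :: S k) k')
      rw [update_of_ne hk, actS, dif_neg (fun h => hk h.1)]
      exact h3 k'
  | peek k f q =>
    exact ⟨rfl, congrArg (f v) (hh k), h3⟩
  | pop k f q =>
    refine ⟨rfl, ?_, ?_⟩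
    · exact congrArg (f v) (hh k)
    · intro k'
      by_cases hk : k' = k
      · subst hk
        change RelS k' ((actS (.pop k' f q) v k').run (S' k')) (update S k' (S k').tail k')
        rw [update_self, actS, if_pos rfl]
        exact (h3 k').tail
      · change RelS k' ((actS (.pop k f q) v k').run (S' k')) (update S k (S k).tail k')
        rw [update_of_ne hk, actS, if_neg hk]
        exact h3 k'
  | load a q => exact ⟨rfl, rfl, h3⟩
  | branch f q₁ q₂ => exact ⟨rfl, rfl, h3⟩
  | goto f => exact ⟨rfl, rfl, h3⟩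
  | halt => exact ⟨rfl, rfl, h3⟩

/-- The input of the stack machine. -/
def inOf (l : List (Γ k₀)) : List (smOf m main v₀ k₀ x₁).G :=
  l.map fun a => (⟨⟨k₀, a⟩, Or.inl ⟨a, rfl⟩⟩ : syset m k₀ x₁)

theorem rel_conf (l : List (Γ k₀)) (T : ℕ) :
    Rel m main v₀ k₀ x₁ ((smOf m main v₀ k₀ x₁).conf (inOf m main v₀ k₀ x₁ l) T)
      ((mstep m)^[T] (m main, v₀, fun k => if h : k = k₀ then h ▸ l else [])) := by
  induction T with
  | zero =>
    refine ⟨rfl, rfl, ?_⟩
    intro k
    change RelS (P := syset m k₀ x₁) k _ (if h : k = k₀ then h ▸ l else [])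
    by_cases hk : k = k₀
    · subst hk
      have e1 : ((smOf m main v₀ k x₁).conf (inOf m main v₀ k x₁ l) 0).2 k =
          inOf m main v₀ k x₁ l := if_pos rfl
      rw [e1, dif_pos rfl]
      change List.map Subtype.val (List.map (fun a =>
        (⟨⟨k, a⟩, Or.inl ⟨a, rfl⟩⟩ : syset m k x₁)) l) = List.map (Sigma.mk k) l
      rw [List.map_map]
      rfl
    · have e1 : ((smOf m main v₀ k₀ x₁).conf (inOf m main v₀ k₀ x₁ l) 0).2 k = [] := if_neg hk
      rw [e1, dif_neg hk]
      rfl
  | succ T ih =>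
    rw [Function.iterate_succ_apply']
    exact rel_step m main v₀ k₀ x₁ ih

end machine

/-- The top of the output stack of a Turing machine. -/
theorem output_top (tm : FinTM2) (b : ℕ) (hb : ∀ l, height (tm.m l) ≤ b)
    (l : List (tm.Γ tm.k₀)) (a : tm.Γ tm.k₁) (n : ℕ)
    (h : TM2OutputsInTime tm l (some [a]) n) (T : ℕ) (hT : b * n ≤ T) :
    ((mstep tm.m)^[T] (tm.m tm.main, tm.initialState,
      fun k => if h : k = tm.k₀ then h ▸ l else [])).2.2 tm.k₁ = [a] := by
  have h1 := h.evals_in_steps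
  obtain ⟨n', h2, h3⟩ := mstep_iterate tm.m b hb h.steps (initList tm l) (haltList tm [a]) h1
  have h4 : toMC tm.m (initList tm l) = (tm.m tm.main, tm.initialState,
      fun k => if h : k = tm.k₀ then h ▸ l else []) := by
    simp only [toMC, initList, Prod.mk.injEq, true_and]
    funext k
    by_cases hk : k = tm.k₀
    · subst hk
      simp
    · simp [hk]
  have h5 : n' ≤ T := h2.trans ((Nat.mul_le_mul_left b h.steps_le_m).trans hT)
  obtain ⟨d, rfl⟩ := Nat.exists_eq_add_of_le h5
  rw [Nat.add_comm, Function.iterate_add_apply, ← h4, h3]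
  simp only [toMC, haltList]
  rw [mstep_halt]
  simp

end Pool.Agent.Lib.CookLevin
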