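import Pool.Agent.Lib.CookLevin.SM
import Pool.Agent.Lib.MP_c85d9c_lc.Defs

/-!
# The formula of a computation
-/

namespace Pool.Agent.Lib.CookLevin

open Pool.Agent.Lib.MP_c85d9c_lc

/-- The list of all elements of a finite type. -/
noncomputable def LL (X : Type) [Finite X] : List X := (@Finset.univ X (Fintype.ofFinite X)).toList

theorem mem_LL {X : Type} [Finite X] (x : X) : x ∈ LL X := by simp [LL]

namespace SM

variable (M : SM)

/-- Cells: a state, or a stack with the content of one of its cells. -/
abbrev Cell : Type := M.Q ⊕ (M.K × Option M.G)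

/-- The number of cells. -/
noncomputable def nC : ℕ := Nat.card M.Cell

/-- The numbering of the cells. -/
noncomputable def eC : M.Cell ≃ Fin M.nC := Finite.equivFin M.Cell

/-- The number of a cell. -/
noncomputable def num (c : M.Cell) : ℕ := (M.eC c).val

theorem num_lt (c : M.Cell) : M.num c < M.nC := (M.eC c).isLt

/-- Templates of literals. -/
structure TL where
  /-- positive or negative -/
  sign : Bool
  /-- it speaks about the next time -/
  nxt : Bool
  /-- it speaks about the cell `i` -/
  useI : Bool
  /-- it speaks about the next cell -/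
  ext : Bool
  /-- the content -/
  c : M.Cell

variable {M}

/-- The literal of a template. -/
noncomputable def TL.lit (P P' i : ℕ) (τ : M.TL) : Lit :=
  (false, τ.sign, ((if τ.nxt then P' else P) + (if τ.useI then i else 0) +
    (if τ.ext then 1 else 0)) * M.nC + M.num τ.c)

/-- The clauses of a list of templates of clauses. -/
noncomputable def fam (P P' i : ℕ) (F : List (List M.TL)) : Formula :=
  F.map fun t => t.map (TL.lit P P' i)

variable (M)

/-- The premise: the state is `q` and the tops of the stacks are given by `g`. -/
noncomputable def pre (q : M.Q) (g : M.K → Option M.G) : List M.TL :=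
  ⟨false, false, false, false, Sum.inl q⟩ ::
    (LL M.K).map fun k => ⟨false, false, false, false, Sum.inr (k, g k)⟩

/-- The clause about the symbol pushed. -/
noncomputable def pushT (q : M.Q) (g : M.K → Option M.G) (k : M.K) : Act M.G → List (List M.TL)
  | .push s => [M.pre q g ++ [⟨true, true, false, false, Sum.inr (k, some s)⟩]]
  | _ => []

/-- The clauses about the state and the symbols pushed. -/
noncomputable def stepA : List (List M.TL) :=
  (LL (M.Q × (M.K → Option M.G))).flatMap fun p =>
    (M.pre p.1 p.2 ++ [⟨true, true, false, false, Sum.inl (M.δ p.1 p.2)⟩]) ::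
      (LL M.K).flatMap fun k => M.pushT p.1 p.2 k (M.act p.1 p.2 k)

/-- The conclusion about a cell. -/
def moveT (k : M.K) (s : Option M.G) : Act M.G → List M.TL
  | .keep => [⟨false, false, true, false, Sum.inr (k, s)⟩, ⟨true, true, true, false, Sum.inr (k, s)⟩]
  | .pop => [⟨false, false, true, true, Sum.inr (k, s)⟩, ⟨true, true, true, false, Sum.inr (k, s)⟩]
  | .push _ => [⟨false, false, true, false, Sum.inr (k, s)⟩,
      ⟨true, true, true, true, Sum.inr (k, s)⟩]

/-- The clauses about the cells. -/
noncomputable def stepB : List (List M.TL) :=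
  (LL ((M.Q × (M.K → Option M.G)) × (M.K × Option M.G))).map fun p =>
    M.pre p.1.1 p.1.2 ++ M.moveT p.2.1 p.2.2 (M.act p.1.1 p.1.2 p.2.1)

/-- The clause about the initial state. -/
def initQ : List (List M.TL) := [[⟨true, false, false, false, Sum.inl M.q₀⟩]]

open Classical in
/-- The clauses about the other stacks at the beginning. -/
noncomputable def initO : List (List M.TL) :=
  ((LL M.K).filter fun k => decide (k ≠ M.k₀)).map fun k =>
    [⟨true, false, true, false, Sum.inr (k, none)⟩]

/-- The clause about the input. -/
def initX (a : M.G) : List (List M.TL) :=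
  [[⟨true, false, true, false, Sum.inr (M.k₀, some a)⟩]]

/-- The clauses about the certificate. -/
def initC (a b : M.G) : List (List M.TL) :=
  [[⟨true, false, true, false, Sum.inr (M.k₀, some a)⟩,
    ⟨true, false, true, false, Sum.inr (M.k₀, some b)⟩,
    ⟨true, false, true, false, Sum.inr (M.k₀, none)⟩],
   [⟨false, false, true, false, Sum.inr (M.k₀, none)⟩,
    ⟨true, false, true, true, Sum.inr (M.k₀, none)⟩]]

/-- The clause about the part below the certificate. -/
def initN : List (List M.TL) := [[⟨true, false, true, false, Sum.inr (M.k₀, none)⟩]]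

/-- The clause about the output. -/
def finalT (k₁ : M.K) (z : M.G) : List (List M.TL) :=
  [[⟨false, false, false, false, Sum.inr (k₁, some z)⟩]]

variable {M}

/-- The clauses about the input, from the cell `i` on. -/
noncomputable def famX : ℕ → List M.G → Formula
  | _, [] => []
  | i, a :: l => fam 0 0 i (M.initX a) ++ famX (i + 1) l

/-- The formula: on the input `x` followed by a certificate of length at most `m`, the top of the
stack `k₁` at time `T` is not `z`. -/
noncomputable def form (x : List M.G) (m T : ℕ) (a b : M.G) (k₁ : M.K) (z : M.G) : Formula :=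
  fam 0 0 0 M.initQ ++ (famX 0 x ++
    ((List.range m).flatMap (fun j => fam 0 0 (x.length + j) (M.initC a b)) ++
    ((List.range (T + 1)).flatMap (fun j => fam 0 0 (x.length + m + j) M.initN) ++
    ((List.range (x.length + m + T + 1)).flatMap (fun i => fam 0 0 i M.initO) ++
    ((List.range T).flatMap (fun t => fam (t * (x.length + m + T + 1))
        ((t + 1) * (x.length + m + T + 1)) 0 M.stepA ++
      (List.range (x.length + m + T)).flatMap (fun i => fam (t * (x.length + m + T + 1))
        ((t + 1) * (x.length + m + T + 1)) i M.stepB)) ++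
    fam (T * (x.length + m + T + 1)) 0 0 (M.finalT k₁ z))))))

/-- The value of a cell in the row that starts at `P`. -/
def At (α : ℕ → Bool) (P i : ℕ) (c : M.Cell) : Prop := α ((P + i) * M.nC + M.num c) = true

/-- The clauses of a list of templates hold. -/
def FH (α : ℕ → Bool) (P P' i : ℕ) (F : List (List M.TL)) : Prop :=
  ∀ t ∈ F, ∃ τ ∈ t, α (TL.lit P P' i τ).2.2 = τ.sign

/-- The formula holds under the assignment. -/
def Hl (α : ℕ → Bool) (φ : Formula) : Prop := ∀ C ∈ φ, ∃ l ∈ C, α l.2.2 = l.2.1

theorem hl_append {α : ℕ → Bool} {φ ψ : Formula} : Hl α (φ ++ ψ) ↔ Hl α φ ∧ Hl α ψ := by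
  unfold Hl
  rw [List.forall_mem_append]

theorem hl_flatMap {X : Type} {α : ℕ → Bool} {L : List X} {f : X → Formula} :
    Hl α (L.flatMap f) ↔ ∀ x ∈ L, Hl α (f x) := by
  unfold Hl
  simp only [List.mem_flatMap]
  constructor
  · intro h x hx C hC
    exact h C ⟨x, hx, hC⟩
  · rintro h C ⟨x, hx, hC⟩
    exact h x hx C hC

theorem hl_fam {α : ℕ → Bool} {P P' i : ℕ} {F : List (List M.TL)} :
    Hl α (fam P P' i F) ↔ FH α P P' i F := by
  unfold Hl fam FH
  constructor
  · intro h t ht
    obtain ⟨l, hl, hl'⟩ := h _ (List.mem_map.2 ⟨t, ht, rfl⟩)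
    obtain ⟨τ, hτ, rfl⟩ := List.mem_map.1 hl
    exact ⟨τ, hτ, hl'⟩
  · intro h C hC
    obtain ⟨t, ht, rfl⟩ := List.mem_map.1 hC
    obtain ⟨τ, hτ, hl⟩ := h t ht
    exact ⟨_, List.mem_map.2 ⟨τ, hτ, rfl⟩, hl⟩

theorem hl_famX {α : ℕ → Bool} : ∀ {i : ℕ} {x : List M.G},
    Hl α (famX i x) ↔ ∀ j a, x[j]? = some a → FH α 0 0 (i + j) (M.initX a) := by
  intro i x
  induction x generalizing i with
  | nil => simp [famX, Hl]
  | cons a l ih =>
    unfold famX
    rw [hl_append, hl_fam, ih]
    constructor
    · rintro ⟨h1, h2⟩ j b hb
      rcases j with _ | j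
      · simp only [List.getElem?_cons_zero, Option.some.injEq] at hb
        subst hb; exact h1
      · simp only [List.getElem?_cons_succ] at hb
        have := h2 j b hb
        rwa [show i + 1 + j = i + (j + 1) by ring] at this
    · intro h
      refine ⟨h 0 a rfl, fun j b hb => ?_⟩
      have := h (j + 1) b (by simpa using hb)
      rwa [show i + (j + 1) = i + 1 + j by ring] at this

theorem satisfiable_iff_hl {φ : Formula} (h : φ.IsExistential) :
    φ.Satisfiable ↔ ∃ α, Hl α φ := by
  unfold Formula.Satisfiable Formula.Holds Hl Lit.Holds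
  constructor
  · rintro ⟨α, β, hα⟩
    refine ⟨α, fun C hC => ?_⟩
    obtain ⟨l, hl, h'⟩ := hα C hC
    rw [h C hC l hl] at h'
    exact ⟨l, hl, by simpa using h'⟩
  · rintro ⟨α, hα⟩
    refine ⟨α, α, fun C hC => ?_⟩
    obtain ⟨l, hl, h'⟩ := hα C hC
    refine ⟨l, hl, ?_⟩
    rw [h C hC l hl]
    simpa using h'

theorem existential_append {φ ψ : Formula} (h₁ : φ.IsExistential) (h₂ : ψ.IsExistential) :
    Formula.IsExistential (φ ++ ψ) := by
  intro C hC
  rcases List.mem_append.1 hC with h | h
  exacts [h₁ C h, h₂ C h]

theorem existential_flatMap {X : Type} {L : List X} {f : X → Formula}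
    (h : ∀ x ∈ L, (f x).IsExistential) : Formula.IsExistential (L.flatMap f) := by
  intro C hC
  obtain ⟨x, hx, hC⟩ := List.mem_flatMap.1 hC
  exact h x hx C hC

theorem existential_fam {P P' i : ℕ} {F : List (List M.TL)} :
    Formula.IsExistential (fam P P' i F) := by
  intro C hC l hl
  unfold fam at hC
  obtain ⟨t, _, rfl⟩ := List.mem_map.1 hC
  obtain ⟨τ, _, rfl⟩ := List.mem_map.1 hl
  rfl

theorem existential_famX {i : ℕ} {x : List M.G} : Formula.IsExistential (famX i x) := by
  induction x generalizing i with
  | nil => intro C hC; simp [famX] at hC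
  | cons a l ih => exact existential_append existential_fam ih

theorem existential_form {x : List M.G} {m T : ℕ} {a b : M.G} {k₁ : M.K} {z : M.G} :
    Formula.IsExistential (form x m T a b k₁ z) := by
  unfold form
  refine existential_append existential_fam (existential_append existential_famX
    (existential_append (existential_flatMap fun _ _ => existential_fam)
    (existential_append (existential_flatMap fun _ _ => existential_fam)
    (existential_append (existential_flatMap fun _ _ => existential_fam)
    (existential_append (existential_flatMap fun _ _ => existential_append existential_fam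
      (existential_flatMap fun _ _ => existential_fam)) existential_fam)))))

end SM

end Pool.Agent.Lib.CookLevin
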